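import Pool.Agent.Run7.h127.PS.Multi
import Pool.Agent.Run7.h127.FV.Cons

/-!
# Consequences for the polynomial Freiman-Ruzsa conjecture
-/

set_option autoImplicit false
set_option linter.unusedSectionVars false

namespace Pool.Agent.Run7.h127.PS

open Finset Pool.Agent.Y806.DF Pool.Agent.R92.Star Pool.Agent.R849.IS
open Pool.Agent.Run7.h127.FV (root mem_root fibre torsion' log_le_self transfer root_concl)
open scoped Pointwise

universe u

/-- `inter` with any decidability instances -/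
theorem inter' {Γ : Type u} [AddCommGroup Γ] [d : DecidableEq Γ] {A : Finset Γ}
    (hA : A.Nonempty) {K : ℝ} (hK : ((A + A).card : ℝ) ≤ K * A.card) {m n : ℕ} (hm : 1 ≤ m)
    {η : ℝ} (hη : 0 < η) (F : Set (AddSubgroup Γ))
    (hF : ∀ G ∈ F, ∃ B : Finset Γ, B.card ≤ m ∧
      ((m : ℝ) / (n + 1) + η) * A.card ≤ {a | a ∈ A ∧ ∃ b ∈ B, a - b ∈ G}.ncard) :
    ∃ g ∈ A, (A.card : ℝ) ≤ K ^ (2 * 10 ^ 10 / η ^ 4 * Real.log (2 * m)) *
      (sec (root (mult n η) (sInf F)) A g).card := by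
  classical
  have hd : d = (fun a b => Classical.propDecidable (a = b)) := Subsingleton.elim _ _
  subst hd
  obtain ⟨g, hg, h⟩ := inter hA hK hm hη F (fun G hG => by
    obtain ⟨B, hB, he⟩ := hF G hG
    refine ⟨B, hB, ?_⟩
    rw [← ncard_eq]
    exact he)
  refine ⟨g, hg, ?_⟩
  rw [card_sec]
  exact h

lemma le_of_popular {Γ : Type u} [AddCommGroup Γ] {A : Finset Γ}
    (hA : A.Nonempty) {m n : ℕ} {η : ℝ} (hη : 0 < η) {G : AddSubgroup Γ} {B : Finset Γ}
    (hB : ((m : ℝ) / (n + 1) + η) * A.card ≤ {a | a ∈ A ∧ ∃ b ∈ B, a - b ∈ G}.ncard) :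
    η ≤ 1 ∧ m ≤ n := by
  classical
  have hN : (0 : ℝ) < A.card := by exact_mod_cast card_pos.2 hA
  have h1 : ({a | a ∈ A ∧ ∃ b ∈ B, a - b ∈ G}.ncard : ℝ) ≤ A.card := by
    rw [ncard_eq]
    exact_mod_cast card_filter_le _ _
  have h2 : ((m : ℝ) / (n + 1) + η) * A.card ≤ 1 * A.card := by linarith
  have h3 := le_of_mul_le_mul_right h2 hN
  have h4 : (0 : ℝ) ≤ (m : ℝ) / (n + 1) := by positivity
  refine ⟨by linarith, ?_⟩
  have h5 : (m : ℝ) / (n + 1) < 1 := by linarith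
  rw [div_lt_one (by positivity)] at h5
  have h6 : m < n + 1 := by exact_mod_cast h5
  omega

lemma log_mult_mul {n q : ℕ} {η : ℝ} (hη : 0 < η) (hη1 : η ≤ 1) (hq : 0 < q) :
    (Nat.log 2 (mult n η * q) : ℝ) ≤ 330 / η ^ 4 * n + Nat.log 2 q + 1 := by
  have hM : (0 : ℝ) < mult n η := by exact_mod_cast mult_pos n η
  have hq' : (0 : ℝ) < q := by exact_mod_cast hq
  have hn : (0 : ℝ) ≤ n := Nat.cast_nonneg n
  have hl2 := log_two_gt
  have hη4 : 0 < η ^ 4 := by positivity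
  have h1 : Real.log (mult n η) ≤ 330 / η ^ 4 * n * Real.log 2 := by
    unfold mult
    rw [Nat.cast_pow, Real.log_pow, ← Chebyshev.psi_eq_log_lcmUpto]
    have h2 := Chebyshev.psi_le_const_mul_self (x := (n : ℝ)) hn
    have h3 : Real.log 4 ≤ 14 / 10 := by
      rw [show (4 : ℝ) = 2 ^ 2 by norm_num, Real.log_pow]
      have := Real.log_two_lt_d9
      norm_num at this ⊢
      linarith
    have h4 : Chebyshev.psi n ≤ 54 / 10 * n := by
      refine h2.trans (mul_le_mul_of_nonneg_right (by linarith) hn)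
    have h5 : (⌈40 / η ^ 2⌉₊ : ℝ) ≤ 41 / η ^ 4 := by
      have h6 := (Nat.ceil_lt_add_one (show (0 : ℝ) ≤ 40 / η ^ 2 by positivity)).le
      refine h6.trans ?_
      have h7 : 40 / η ^ 2 ≤ 40 / η ^ 4 :=
        div_le_div_of_nonneg_left (by norm_num) hη4 (pow_le_pow_of_le_one hη.le hη1 (by norm_num))
      have h8 : (1 : ℝ) ≤ 1 / η ^ 4 := by
        rw [le_div_iff₀ hη4]
        have : η ^ 4 ≤ 1 := pow_le_one₀ hη.le hη1
        linarith
      have h9 : 41 / η ^ 4 = 40 / η ^ 4 + 1 / η ^ 4 := by ring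
      linarith
    calc (⌈40 / η ^ 2⌉₊ : ℝ) * Chebyshev.psi n ≤ 41 / η ^ 4 * (54 / 10 * n) :=
          mul_le_mul h5 h4 (Chebyshev.psi_nonneg _) (by positivity)
      _ = (41 * 54 / 10) * (n / η ^ 4) := by ring
      _ ≤ (330 * Real.log 2) * (n / η ^ 4) := by
          refine mul_le_mul_of_nonneg_right (by linarith) (by positivity)
      _ = 330 / η ^ 4 * n * Real.log 2 := by ring
  have h2 : Real.log q ≤ (Nat.log 2 q + 1) * Real.log 2 := by
    have h3 : q < 2 ^ (Nat.log 2 q + 1) := Nat.lt_pow_succ_log_self (by norm_num) _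
    have h4 : Real.log q ≤ Real.log ((2 : ℝ) ^ (Nat.log 2 q + 1)) :=
      Real.log_le_log hq' (by exact_mod_cast h3.le)
    rw [Real.log_pow] at h4
    push_cast at h4
    exact h4
  have h3 : (Nat.log 2 (mult n η * q) : ℝ) * Real.log 2 ≤ Real.log (mult n η * q : ℕ) := by
    have h4 : 2 ^ (Nat.log 2 (mult n η * q)) ≤ mult n η * q :=
      Nat.pow_log_le_self 2 (Nat.mul_pos (mult_pos n η) hq).ne'
    rw [← Real.log_pow]
    refine Real.log_le_log (by positivity) ?_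
    exact_mod_cast h4
  rw [Nat.cast_mul, Real.log_mul hM.ne' hq'.ne'] at h3
  have h4 : (Nat.log 2 (mult n η * q) : ℝ) * Real.log 2 ≤
      (330 / η ^ 4 * n + Nat.log 2 q + 1) * Real.log 2 := by
    have h5 : (330 / η ^ 4 * n + Nat.log 2 q + 1) * Real.log 2 =
        330 / η ^ 4 * n * Real.log 2 + (Nat.log 2 q + 1) * Real.log 2 := by ring
    linarith
  exact le_of_mul_le_mul_right h4 (by linarith)

/-- **Intersections of bounded exponent.** -/
theorem bounded {Γ : Type u} [AddCommGroup Γ] [DecidableEq Γ] {A : Finset Γ}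
    (hA : A.Nonempty) {K : ℝ} (hK : ((A + A).card : ℝ) ≤ K * A.card) {m n : ℕ} (hm : 1 ≤ m)
    {η : ℝ} (hη : 0 < η) (hη1 : η ≤ 1) (hmn : m ≤ n) (F : Set (AddSubgroup Γ))
    (hF : ∀ G ∈ F, ∃ B : Finset Γ, B.card ≤ m ∧
      ((m : ℝ) / (n + 1) + η) * A.card ≤ {a | a ∈ A ∧ ∃ b ∈ B, a - b ∈ G}.ncard) {q : ℕ}
    (hq : 0 < q) (hN : ∀ x ∈ sInf F, q • x = 0) :
    ∃ (H : AddSubgroup Γ) (T : Finset Γ), Finite H ∧ Nat.card H ≤ A.card ∧
      (T.card : ℝ) ≤ (2 * K) ^ (3 * 10 ^ 10 / η ^ 4 * (n + Nat.log 2 q + 1)) ∧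
        ∀ a ∈ A, ∃ t ∈ T, a - t ∈ H := by
  have hK1 := one_le_K hA hK
  have hK0 : 0 < K := by linarith
  obtain ⟨g, -, hg⟩ := inter' hA hK hm hη F hF
  obtain ⟨H, T, h1, h2, h3, h4⟩ := torsion' (root (mult n η) (sInf F)) (q := mult n η * q)
    (Nat.mul_pos (mult_pos n η) hq) (fun x hx => by
      rw [mul_nsmul]
      exact hN _ (mem_root.1 hx)) hA hK (Real.rpow_nonneg hK0.le _) hg
  refine ⟨H, T, h1, h2, h3.trans ?_, h4⟩
  have h2K : 1 ≤ 2 * K := by linarith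
  have h2K0 : 0 < 2 * K := by linarith
  obtain ⟨e, he⟩ : ∃ e, 2 * 10 ^ 10 / η ^ 4 * Real.log (2 * m) = e := ⟨_, rfl⟩
  have hlm : 0 ≤ Real.log (2 * m) := Real.log_nonneg (by
    have : (1 : ℝ) ≤ m := by exact_mod_cast hm
    linarith)
  have he0 : 0 ≤ e := by
    rw [← he]
    positivity
  have h5 : K ^ e ≤ (2 * K) ^ e := Real.rpow_le_rpow hK0.le (by linarith) he0
  rw [he]
  have hη4 : 0 < η ^ 4 := by positivity
  calc K * K ^ e * (2 * K) ^ (246030 * (Nat.log 2 (mult n η * q) + 1))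
      ≤ (2 * K) ^ (1 : ℝ) * (2 * K) ^ e *
          (2 * K) ^ ((246030 * (Nat.log 2 (mult n η * q) + 1) : ℕ) : ℝ) := by
        rw [Real.rpow_one, Real.rpow_natCast]
        gcongr
        linarith
    _ = (2 * K) ^ (1 + e + ((246030 * (Nat.log 2 (mult n η * q) + 1) : ℕ) : ℝ)) := by
        rw [← Real.rpow_add h2K0, ← Real.rpow_add h2K0]
    _ ≤ (2 * K) ^ (3 * 10 ^ 10 / η ^ 4 * (n + Nat.log 2 q + 1)) := by
        refine Real.rpow_le_rpow_of_exponent_le h2K ?_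
        have h6 := log_mult_mul (n := n) hη hη1 hq
        have h7 : e ≤ 2 * 10 ^ 10 / η ^ 4 * n := by
          rw [← he]
          refine mul_le_mul_of_nonneg_left ?_ (by positivity)
          exact (log_le_self hm).trans (by exact_mod_cast hmn)
        have h8 : (1 : ℝ) ≤ 1 / η ^ 4 := by
          rw [le_div_iff₀ hη4]
          have : η ^ 4 ≤ 1 := pow_le_one₀ hη.le hη1
          linarith
        have hn : (0 : ℝ) ≤ n := Nat.cast_nonneg n
        have hl : (0 : ℝ) ≤ Nat.log 2 q := Nat.cast_nonneg _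
        obtain ⟨z, hz⟩ : ∃ z, z = 1 / η ^ 4 := ⟨_, rfl⟩
        rw [← hz] at h8
        have e1 : 3 * 10 ^ 10 / η ^ 4 * (n + Nat.log 2 q + 1) =
            3 * 10 ^ 10 * (z * n) + 3 * 10 ^ 10 * (z * Nat.log 2 q) + 3 * 10 ^ 10 * z := by
          rw [hz]
          ring
        have e2 : 2 * 10 ^ 10 / η ^ 4 * (n : ℝ) = 2 * 10 ^ 10 * (z * n) := by
          rw [hz]
          ring
        have e3 : 330 / η ^ 4 * (n : ℝ) = 330 * (z * n) := by
          rw [hz]
          ring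
        rw [e1]
        rw [e2] at h7
        rw [e3] at h6
        have h9 : (Nat.log 2 q : ℝ) ≤ z * Nat.log 2 q := le_mul_of_one_le_left hl h8
        have h10 : 0 ≤ z * n := by positivity
        push_cast
        linarith

/-- **Q1 from the intersection.** -/
theorem concl_inter (C : ℝ) (m n : ℕ) (hm : 1 ≤ m) (η : ℝ) (hη : 0 < η) : ∃ C' : ℝ,
    ∀ (Γ : Type u) [AddCommGroup Γ]
    [DecidableEq Γ] (F : Set (AddSubgroup Γ)) [DecidableEq (sInf F : AddSubgroup Γ)],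
    (∀ (K : ℝ) (S : Finset (sInf F : AddSubgroup Γ)), S.Nonempty →
      ((S + S).card : ℝ) ≤ K * S.card → Concl C K S) →
    ∀ (K : ℝ) (A : Finset Γ), A.Nonempty → ((A + A).card : ℝ) ≤ K * A.card →
      (∀ G ∈ F, ∃ B : Finset Γ, B.card ≤ m ∧
        ((m : ℝ) / (n + 1) + η) * A.card ≤ {a | a ∈ A ∧ ∃ b ∈ B, a - b ∈ G}.ncard) →
      Concl C' K A := by
  classical
  obtain ⟨C₁, hC₁⟩ := root_concl.{u} C (mult n η) (mult_pos n η)
  obtain ⟨C₂, hC₂⟩ := transfer.{u} C₁ (⌈2 * 10 ^ 10 / η ^ 4 * Real.log (2 * m)⌉₊)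
  refine ⟨C₂, ?_⟩
  intro Γ _ _ F _ hN K A hA hK hF
  have hK1 := one_le_K hA hK
  obtain ⟨g, -, hg⟩ := inter' hA hK hm hη F hF
  refine hC₂ Γ (root (mult n η) (sInf F)) (hC₁ Γ (sInf F) hN) K A g hA hK (hg.trans ?_)
  refine mul_le_mul_of_nonneg_right ?_ (Nat.cast_nonneg _)
  rw [← Real.rpow_natCast K]
  exact Real.rpow_le_rpow_of_exponent_le hK1 (Nat.le_ceil _)

/-- **The threshold is optimal.** -/
theorem sharp_prime (p k M : ℕ) (hp : p.Prime) (hM : ¬ p ∣ M) :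
    ∃ F : Set (AddSubgroup (Fin k → ZMod p)), (∀ G ∈ F, G.index = p) ∧
      ∀ T : Finset (Fin k → ZMod p), (∀ a, ∃ t ∈ T, M • (a - t) ∈ sInf F) → p ^ k ≤ T.card := by
  classical
  have : Fact p.Prime := ⟨hp⟩
  refine ⟨Set.range fun i => (Pi.evalAddMonoidHom (fun _ : Fin k => ZMod p) i).ker, ?_, ?_⟩
  · rintro _ ⟨i, rfl⟩
    rw [AddSubgroup.index_ker]
    have h1 : (Pi.evalAddMonoidHom (fun _ : Fin k => ZMod p) i).range = ⊤ := by
      rw [AddMonoidHom.range_eq_top]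
      exact Function.surjective_eval i
    rw [h1, AddSubgroup.card_top, Nat.card_zmod]
  · intro T hT
    have h1 : (univ : Finset (Fin k → ZMod p)) ⊆ T := by
      intro a _
      obtain ⟨t, ht, h1⟩ := hT a
      have h2 : a = t := by
        funext i
        rw [AddSubgroup.mem_sInf] at h1
        have h3 : (M • (a - t)) i = 0 := h1 _ ⟨i, rfl⟩
        rw [Pi.smul_apply, Pi.sub_apply, nsmul_eq_mul, mul_eq_zero] at h3
        rcases h3 with h3 | h3
        · exact absurd ((ZMod.natCast_eq_zero_iff _ _).1 h3) hM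
        · exact sub_eq_zero.1 h3
      rw [h2]
      exact ht
    have h2 := card_le_card h1
    rw [card_univ, Fintype.card_fun, ZMod.card, Fintype.card_fin] at h2
    exact h2

end Pool.Agent.Run7.h127.PS
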