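import Pool.Agent.Run7.h127.PS.Robust
import Pool.Agent.Run7.h127.PS.Cons

/-!
# Reduction of the polynomial Freiman-Ruzsa conjecture to sets without popular cosets
-/

set_option autoImplicit false
set_option linter.unusedSectionVars false

namespace Pool.Agent.Run7.h127.PS

open Finset Pool.Agent.Y806.DF Pool.Agent.R92.Star Pool.Agent.R849.IS
open Pool.Agent.Run7.h127.FV (root mem_root fibre torsion' log_le_self transfer root_concl)
open scoped Pointwise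

universe u

/-- `main` with any decidability instances -/
theorem main' {Γ : Type u} [AddCommGroup Γ] [d : DecidableEq Γ] {ι : Type*} {V : ι → Type*}
    [∀ i, AddCommGroup (V i)] {A : Finset Γ} (hA : A.Nonempty) {K : ℝ}
    (hK : ((A + A).card : ℝ) ≤ K * A.card) {m n : ℕ} (hm : 1 ≤ m) {η : ℝ} (hη : 0 < η)
    (f : ∀ i, Γ → V i)
    (hf : ∀ i, ∀ a ∈ A, ∀ b ∈ A, ∀ c ∈ A, ∀ d ∈ A, a + b = c + d → f i a + f i b = f i c + f i d)
    (hF : ∀ i, ∃ B : Finset (V i), B.card ≤ m ∧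
      ((m : ℝ) / (n + 1) + η) * A.card ≤ {a | a ∈ A ∧ f i a ∈ B}.ncard) :
    ∃ A' ⊆ A, A'.Nonempty ∧
      (A.card : ℝ) ≤ K ^ (4 * 10 ^ 10 / η ^ 4 * Real.log (2 * m)) * A'.card ∧
      (∀ i, ∀ a ∈ A', ∀ b ∈ A', mult n η • f i a = mult n η • f i b) ∧
      ∀ (n' : ℕ) (G : AddSubgroup Γ), (∃ R : Finset Γ, R.card ≤ m ∧
        ((m : ℝ) / (n' + 1) + η) * A'.card ≤ {a | a ∈ A' ∧ ∃ b ∈ R, a - b ∈ G}.ncard) →
        ∀ a ∈ A', ∀ b ∈ A', mult n' η • (a - b) ∈ G := by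
  classical
  have hd : d = (fun a b => Classical.propDecidable (a = b)) := Subsingleton.elim _ _
  subst hd
  obtain ⟨A', h1, h2, h3, h4, h5⟩ := main hA hK hm hη f hf (fun i => by
    obtain ⟨B, hB, he⟩ := hF i
    refine ⟨B, hB, ?_⟩
    rw [ncard_eq] at he
    convert he)
  refine ⟨A', h1, h2, h3, h4, ?_⟩
  rintro n' G ⟨R, hR, he⟩
  refine h5 n' G ⟨R, hR, ?_⟩
  rw [ncard_eq] at he
  convert he

/-- `Data` passes from a subset to the whole set. -/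
theorem data_sub {Γ : Type u} [AddCommGroup Γ] [DecidableEq Γ] {A A' : Finset Γ} {M L : ℝ}
    (hM : 1 ≤ M) (hL : 0 ≤ L) (hAA : A' ⊆ A) (hbig : (A.card : ℝ) ≤ M * A'.card) {d : ℕ}
    {X : Finset (Fin d → ℤ)} {ψ : (Fin d → ℤ) →+ Γ} {H : AddSubgroup Γ} {g : Γ}
    (hD : Data L A' X ψ H g) : Data (M * L) A X ψ H g := by
  have hML : L ≤ M * L := le_mul_of_one_le_left hL hM
  have hcard : (A'.card : ℝ) ≤ A.card := by exact_mod_cast card_le_card hAA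
  refine ⟨hD.ne, hD.fin, ?_, ?_, ?_, ?_⟩
  · exact hD.doubling.trans (mul_le_mul_of_nonneg_right hML (Nat.cast_nonneg _))
  · exact hD.dense.trans (mul_le_mul_of_nonneg_right hML (Nat.cast_nonneg _))
  · exact hD.size.trans (mul_le_mul hML hcard (Nat.cast_nonneg _) (by positivity))
  · have h1 : {a : Γ | a ∈ A' ∧ ∃ x ∈ X, ∃ h ∈ H, a = g + ψ x + h}.ncard ≤
        {a : Γ | a ∈ A ∧ ∃ x ∈ X, ∃ h ∈ H, a = g + ψ x + h}.ncard := by
      refine Set.ncard_le_ncard (fun a ha => ⟨hAA ha.1, ha.2⟩) ?_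
      exact (A.finite_toSet).subset fun a ha => ha.1
    have h2 : (({a : Γ | a ∈ A' ∧ ∃ x ∈ X, ∃ h ∈ H, a = g + ψ x + h}.ncard : ℕ) : ℝ) ≤
        ({a : Γ | a ∈ A ∧ ∃ x ∈ X, ∃ h ∈ H, a = g + ψ x + h}.ncard : ℕ) := by exact_mod_cast h1
    have h3 := hD.meet
    calc (A.card : ℝ) ≤ M * A'.card := hbig
      _ ≤ M * (L * ({a : Γ | a ∈ A' ∧ ∃ x ∈ X, ∃ h ∈ H, a = g + ψ x + h}.ncard : ℕ)) :=
        mul_le_mul_of_nonneg_left h3 (by linarith)
      _ ≤ M * (L * ({a : Γ | a ∈ A ∧ ∃ x ∈ X, ∃ h ∈ H, a = g + ψ x + h}.ncard : ℕ)) := by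
        gcongr
      _ = M * L * ({a : Γ | a ∈ A ∧ ∃ x ∈ X, ∃ h ∈ H, a = g + ψ x + h}.ncard : ℕ) := by ring

/-- The conclusion of Q1 passes from a large subset to the set. -/
theorem transfer_sub (C : ℝ) (c : ℕ) : ∃ C' : ℝ, ∀ (Γ : Type u) [AddCommGroup Γ] [DecidableEq Γ]
    (K : ℝ) (A A' : Finset Γ), A.Nonempty → ((A + A).card : ℝ) ≤ K * A.card → A' ⊆ A →
      (A.card : ℝ) ≤ K ^ c * A'.card → Concl C (K ^ (c + 1)) A' → Concl C' K A := by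
  obtain ⟨n, hn1, hn, hCK⟩ := nat_const C
  obtain ⟨C', hC'⟩ := Pool.Agent.R424.EX.concl_of.{u} (4 ^ n) (c + (c + 1) * 4 ^ n)
  refine ⟨C', ?_⟩
  intro Γ _ _ K A A' hA hK hAA hbig hconcl
  have hK1 := one_le_K hA hK
  have hK0 : 0 < K := by linarith
  have hA0 : (0 : ℝ) < A.card := by exact_mod_cast hA.card_pos
  have hAne : A'.Nonempty := by
    rw [← card_pos]
    by_contra hcon
    have h0 : A'.card = 0 := by omega
    rw [h0, Nat.cast_zero, mul_zero] at hbig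
    linarith
  have hSS : ((A' + A').card : ℝ) ≤ K ^ (c + 1) * A'.card := by
    have h1 : ((A' + A').card : ℝ) ≤ (A + A).card := by
      exact_mod_cast card_le_card (add_subset_add hAA hAA)
    calc ((A' + A').card : ℝ) ≤ K * A.card := h1.trans hK
      _ ≤ K * (K ^ c * A'.card) := mul_le_mul_of_nonneg_left hbig hK0.le
      _ = K ^ (c + 1) * A'.card := by ring
  obtain ⟨e, X, ψ, H, g, hD⟩ := data_of_concl hn1 hn hCK hAne hSS hconcl
  have hM1 : (1 : ℝ) ≤ K ^ c := one_le_pow₀ hK1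
  have hL1 : (0 : ℝ) ≤ ((4 ^ n : ℕ) : ℝ) * (K ^ (c + 1)) ^ (4 ^ n : ℕ) := by positivity
  have hD' := data_sub hM1 hL1 hAA hbig hD
  refine hC' Γ K A hA hK _ _ ψ H g (hD'.mono (le_of_eq ?_))
  rw [← pow_mul, pow_add]
  ring

/-- **Reduction of Q1 to sets without popular cosets.** -/
theorem concl_robust (C : ℝ) (m : ℕ) (hm : 1 ≤ m) (η : ℝ) (hη : 0 < η) : ∃ C' : ℝ,
    ∀ (Γ : Type u) [AddCommGroup Γ] [DecidableEq Γ],
    (∀ (K : ℝ) (A : Finset Γ), A.Nonempty → ((A + A).card : ℝ) ≤ K * A.card →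
      (∀ (n : ℕ) (G : AddSubgroup Γ), (∃ R : Finset Γ, R.card ≤ m ∧
        ((m : ℝ) / (n + 1) + η) * A.card ≤ {a | a ∈ A ∧ ∃ b ∈ R, a - b ∈ G}.ncard) →
        ∀ a ∈ A, ∀ b ∈ A, mult n η • (a - b) ∈ G) → Concl C K A) →
    ∀ (K : ℝ) (A : Finset Γ), A.Nonempty → ((A + A).card : ℝ) ≤ K * A.card → Concl C' K A := by
  obtain ⟨C', hC'⟩ := transfer_sub.{u} C (⌈4 * 10 ^ 10 / η ^ 4 * Real.log (2 * m)⌉₊)
  refine ⟨C', ?_⟩
  intro Γ _ _ hyp K A hA hK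
  have hK1 := one_le_K hA hK
  have hK0 : 0 < K := by linarith
  obtain ⟨A', h1, h2, h3, -, h5⟩ := main' (ι := Empty) (V := fun _ => Γ) (n := 0) hA hK hm hη
    (fun i => i.elim) (fun i => i.elim) (fun i => i.elim)
  have hbig : (A.card : ℝ) ≤ K ^ (⌈4 * 10 ^ 10 / η ^ 4 * Real.log (2 * m)⌉₊) * A'.card := by
    refine h3.trans (mul_le_mul_of_nonneg_right ?_ (Nat.cast_nonneg _))
    rw [← Real.rpow_natCast K]
    exact Real.rpow_le_rpow_of_exponent_le hK1 (Nat.le_ceil _)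
  refine hC' Γ K A A' hA hK h1 hbig (hyp _ A' h2 ?_ h5)
  have h1' : ((A' + A').card : ℝ) ≤ (A + A).card := by
    exact_mod_cast card_le_card (add_subset_add h1 h1)
  calc ((A' + A').card : ℝ) ≤ K * A.card := h1'.trans hK
    _ ≤ K * (K ^ (⌈4 * 10 ^ 10 / η ^ 4 * Real.log (2 * m)⌉₊) * A'.card) :=
      mul_le_mul_of_nonneg_left hbig hK0.le
    _ = K ^ (⌈4 * 10 ^ 10 / η ^ 4 * Real.log (2 * m)⌉₊ + 1) * A'.card := by ring

end Pool.Agent.Run7.h127.PS
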