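import Pool.Agent.Run7.h127.PS.Multi

/-!
# Popular values of Freiman homomorphisms
-/

set_option autoImplicit false
set_option linter.unusedSectionVars false

namespace Pool.Agent.Run7.h127.PS

open Finset
open Pool.Agent.Y359.PE (h fc cl mem_cl fc_posR fc_pos fc_le fc_congr h_nonneg h_congr h_const
  h_le_log submod chain avg_cl mk mk_eq_iff h_mk_insert mk_add cl_prod)
open scoped Pointwise

universe u v w

open Classical in
/-- **The maximal enlargement** for a function. -/
theorem exists_max' {α : Type u} {V : Type v} [AddCommGroup V] (A : Finset α) (hA : A.Nonempty)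
    (f : α → V) {m n : ℕ} (hm : 1 ≤ m) (hmn : m ≤ n) {η ε : ℝ} (hη : 0 < η)
    (hηε : η ≤ ε) (hε1 : ε ≤ 1) :
    ∃ G' : AddSubgroup V, (∀ x ∈ G', mult n η • x = 0) ∧
      ∀ K : AddSubgroup (V ⧸ G'), Finite K → K ≠ ⊥ → Nat.card K ≤ n →
        pot A (fun a => (QuotientAddGroup.mk (f a) : V ⧸ G')) (ε / (4 * m * n)) -
          pot A (fun a => (QuotientAddGroup.mk (QuotientAddGroup.mk (f a) : V ⧸ G') :
            (V ⧸ G') ⧸ K)) (ε / (4 * m * n)) <
          A.card * (ε / 6 * Real.log (Nat.card K)) := by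
  have hN : (0 : ℝ) < A.card := by exact_mod_cast card_pos.2 hA
  have hε0 : 0 < ε := by linarith
  have hm0 : (1 : ℝ) ≤ m := by exact_mod_cast hm
  have hn0 : (1 : ℝ) ≤ n := by exact_mod_cast hm.trans hmn
  obtain ⟨κ, hκ⟩ : ∃ κ, κ = ε / (4 * m * n) := ⟨_, rfl⟩
  rw [← hκ]
  have hκ0 : 0 < κ := by
    rw [hκ]
    positivity
  have hκ1 : κ ≤ 1 := by
    rw [hκ, div_le_one (by positivity)]
    nlinarith
  obtain ⟨Ψ, hΨ⟩ : ∃ Ψ : AddSubgroup V → ℝ,
    ∀ H, Ψ H = pot A (fun a => (QuotientAddGroup.mk (f a) : V ⧸ H)) κ := ⟨_, fun _ => rfl⟩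
  have hΨ0 : ∀ H, 0 ≤ Ψ H := fun H => by
    rw [hΨ]
    exact pot_nonneg _ _ hκ1
  set P : AddSubgroup V → Prop := fun H => Nat.card H ≠ 0 ∧
    (∀ p : ℕ, p.Prime → p ∣ Nat.card H → p ≤ n) ∧
    Ψ H + A.card * (ε / 6 * Real.log (Nat.card H)) ≤ Ψ ⊥ with hP
  have hPG : P ⊥ := by
    refine ⟨?_, ?_, ?_⟩
    · rw [AddSubgroup.card_bot]
      exact one_ne_zero
    · intro p hp hd
      rw [AddSubgroup.card_bot] at hd
      exact absurd (Nat.dvd_one.1 hd) hp.one_lt.ne'
    · rw [AddSubgroup.card_bot, Nat.cast_one, Real.log_one, mul_zero, mul_zero, add_zero]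
  -- the upper bound for the order
  have hlog : ∀ H, P H → Real.log (Nat.card H) ≤ 6 / ε * Real.log (4 * m * n / ε) := by
    rintro H ⟨-, -, h4⟩
    have h5 : Ψ ⊥ ≤ A.card * (-Real.log κ) := by
      rw [hΨ]
      exact pot_le hA _ hκ0
    have h6 : (A.card : ℝ) * (ε / 6 * Real.log (Nat.card H)) ≤ A.card * (-Real.log κ) := by
      have := hΨ0 H
      linarith
    have h7 := le_of_mul_le_mul_left h6 hN
    have h8 : -Real.log κ = Real.log (4 * m * n / ε) := by
      rw [← Real.log_inv, hκ, inv_div]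
    rw [h8] at h7
    have h9 : Real.log (Nat.card H) = 6 / ε * (ε / 6 * Real.log (Nat.card H)) := by
      field_simp
    rw [h9]
    exact mul_le_mul_of_nonneg_left h7 (by positivity)
  have hbd : ∀ H, P H → Nat.card H ≤ ⌈Real.exp (6 / ε * Real.log (4 * m * n / ε))⌉₊ := by
    intro H hH
    have h1 := hlog H hH
    have h2 : (0 : ℝ) < Nat.card H := by exact_mod_cast Nat.pos_of_ne_zero hH.1
    have h3 : (Nat.card H : ℝ) ≤ Real.exp (6 / ε * Real.log (4 * m * n / ε)) := by
      rw [← Real.log_le_iff_le_exp h2]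
      exact h1
    have h4 := h3.trans (Nat.le_ceil _)
    exact_mod_cast h4
  -- a maximal order
  obtain ⟨r, ⟨G', hPG', hr⟩, hmax⟩ : ∃ r, (∃ H, P H ∧ Nat.card H = r) ∧
      ∀ r', (∃ H, P H ∧ Nat.card H = r') → r' ≤ r := by
    have hne : ∃ r, ∃ H, P H ∧ Nat.card H = r := ⟨_, ⊥, hPG, rfl⟩
    have hb : ∀ r, (∃ H, P H ∧ Nat.card H = r) →
        r ≤ ⌈Real.exp (6 / ε * Real.log (4 * m * n / ε))⌉₊ := by
      rintro r ⟨H, hH, rfl⟩
      exact hbd H hH
    refine ⟨Nat.findGreatest (fun r => ∃ H, P H ∧ Nat.card H = r)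
      (⌈Real.exp (6 / ε * Real.log (4 * m * n / ε))⌉₊), ?_, ?_⟩
    · obtain ⟨r, hr⟩ := hne
      exact Nat.findGreatest_spec (P := fun r => ∃ H, P H ∧ Nat.card H = r) (hb r hr) hr
    · intro r' hr'
      exact Nat.le_findGreatest (hb r' hr') hr'
  have hPG'' := hPG'
  obtain ⟨g2, g3, g4⟩ := hPG'
  refine ⟨G', ?_, ?_⟩
  · intro x hx
    obtain ⟨c, hc⟩ := dvd_mult hm hmn hη hηε hε1 g2 (hlog G' hPG'') g3
    have h1 : Nat.card G' • x = 0 := by
      have h2 : Nat.card G' • (⟨x, hx⟩ : G') = 0 := card_nsmul_eq_zero'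
      exact congrArg Subtype.val h2
    rw [hc, mul_nsmul, h1, nsmul_zero]
  · intro K hKf hK hK2
    by_contra hcon
    push Not at hcon
    obtain ⟨G'', hG''⟩ : ∃ G'', G'' = K.comap (QuotientAddGroup.mk' G') := ⟨_, rfl⟩
    have hmem : ∀ x, x ∈ G'' ↔ (QuotientAddGroup.mk x : V ⧸ G') ∈ K := by
      intro x
      rw [hG'', AddSubgroup.mem_comap]
      rfl
    have h1 : G' ≤ G'' := by
      intro x hx
      rw [hmem, (QuotientAddGroup.eq_zero_iff x).2 hx]
      exact K.zero_mem
    have h2 : G'.relIndex G'' = Nat.card K := by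
      have e1 := AddSubgroup.relIndex_ker (K := G'') (QuotientAddGroup.mk' G')
      rw [QuotientAddGroup.ker_mk'] at e1
      rw [e1, hG'', AddSubgroup.map_comap_eq_self_of_surjective (QuotientAddGroup.mk'_surjective G')]
    have h3 : Nat.card G'' = Nat.card G' * Nat.card K := by
      rw [← h2, ← AddSubgroup.relIndex_bot_left, ← AddSubgroup.relIndex_bot_left]
      exact (AddSubgroup.relIndex_mul_relIndex ⊥ G' G'' bot_le h1).symm
    have hK1 : 1 < Nat.card K := by
      have := (AddSubgroup.one_lt_card_iff_ne_bot K).2 hK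
      exact this
    have h4 : P G'' := by
      refine ⟨?_, ?_, ?_⟩
      · rw [h3]
        exact mul_ne_zero g2 (by omega)
      · intro p hp hd
        rw [h3] at hd
        rcases (Nat.Prime.dvd_mul hp).1 hd with hd | hd
        · exact g3 p hp hd
        · exact (Nat.le_of_dvd (by omega) hd).trans hK2
      · have e1 : pot A (fun a => (QuotientAddGroup.mk (QuotientAddGroup.mk (f a) : V ⧸ G') :
            (V ⧸ G') ⧸ K)) κ = pot A (fun a => (QuotientAddGroup.mk (f a) : V ⧸ G'')) κ := by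
          refine pot_congr fun a _ b _ => ?_
          rw [QuotientAddGroup.eq, QuotientAddGroup.eq, hmem]
          rfl
        rw [e1, ← hΨ, ← hΨ] at hcon
        have e4 : Real.log (Nat.card G'') = Real.log (Nat.card G') + Real.log (Nat.card K) := by
          rw [h3, Nat.cast_mul, Real.log_mul]
          · exact_mod_cast g2
          · exact_mod_cast (show Nat.card K ≠ 0 by omega)
        rw [e4]
        linarith
    have h5 := hmax _ ⟨G'', h4, rfl⟩
    rw [h3, ← hr] at h5
    have h6 : 0 < Nat.card G' := Nat.pos_of_ne_zero g2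
    nlinarith

/-- the coordinate `i` -/
noncomputable def Z {α : Type u} {ι : Type w} {V : ι → Type v} [∀ i, AddCommGroup (V i)]
    (g : ∀ i, AddSubgroup (V i)) (f : ∀ i, α → V i) (a : α) (i : ι) : ∀ j, V j ⧸ g j :=
  open Classical in Pi.single i (QuotientAddGroup.mk (f i a))

section

variable {α : Type u} {ι : Type w} {V : ι → Type v} [∀ i, AddCommGroup (V i)]
  {g : ∀ i, AddSubgroup (V i)} {f : ∀ i, α → V i}

lemma Z_eq_iff {a b : α} {i : ι} :
    Z g f a i = Z g f b i ↔ (QuotientAddGroup.mk (f i a) : V i ⧸ g i) =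
      QuotientAddGroup.mk (f i b) := by
  classical
  unfold Z
  rw [(Pi.single_injective i).eq_iff]

lemma Z_eq_iff' {a b : α} {i : ι} : Z g f a i = Z g f b i ↔ f i a - f i b ∈ g i := by
  rw [Z_eq_iff, QuotientAddGroup.eq]
  have : -f i a + f i b = -(f i a - f i b) := by abel
  rw [this, neg_mem_iff]

lemma Z_add_eq_iff {a b c d : α} {i : ι} : Z g f a i + Z g f b i = Z g f c i + Z g f d i ↔
    (QuotientAddGroup.mk (f i a) : V i ⧸ g i) + QuotientAddGroup.mk (f i b) =
      QuotientAddGroup.mk (f i c) + QuotientAddGroup.mk (f i d) := by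
  classical
  unfold Z
  rw [← Pi.single_add, ← Pi.single_add, (Pi.single_injective i).eq_iff]

end

open Classical in
/-- the entropy of many coordinates is at most a constant times the increment -/
theorem multi' {α : Type u} {ι : Type w} {V : ι → Type v} [∀ i, AddCommGroup (V i)]
    {A : Finset α} (hA : A.Nonempty) {m n : ℕ}
    (hm : 1 ≤ m) {η ε : ℝ} (hη : 0 < η) (hε : (m : ℝ) / (n + 1) + η ≤ ε) (hε1 : ε ≤ 1)
    (g : ∀ i, AddSubgroup (V i)) (f : ∀ i, α → V i) (T : Finset ι)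
    (hT : ∀ i ∈ T, ∃ B : Finset (V i ⧸ g i), B.card ≤ m ∧
      ε * A.card ≤ (A.filter fun a => (QuotientAddGroup.mk (f i a) : V i ⧸ g i) ∈ B).card ∧
      ∀ K : AddSubgroup (V i ⧸ g i), Finite K → K ≠ ⊥ → Nat.card K ≤ n →
        pot A (fun a => (QuotientAddGroup.mk (f i a) : V i ⧸ g i)) (ε / (4 * m * n)) -
          pot A (fun a => (QuotientAddGroup.mk (QuotientAddGroup.mk (f i a) : V i ⧸ g i) :
            (V i ⧸ g i) ⧸ K)) (ε / (4 * m * n)) <
          A.card * (ε / 6 * Real.log (Nat.card K))) :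
    h A (mk T (Z g f)) ≤ 2 * 10 ^ 10 / η ^ 4 * Real.log (2 * m) *
      (h (A ×ˢ A) (fun s => mk T (Z g f) s.1 + mk T (Z g f) s.2) - h A (mk T (Z g f))) := by
  induction T using Finset.induction_on with
  | empty =>
    have e2 : h A (mk ∅ (Z g f)) = 0 := by
      refine h_const _ _ fun x _ y _ => ?_
      rw [mk_eq_iff]
      intro p hp
      exact absurd hp (notMem_empty _)
    rw [e2, sub_zero]
    have h1 : 0 ≤ Real.log (2 * m) := Real.log_nonneg (by
      have : (1 : ℝ) ≤ m := by exact_mod_cast hm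
      linarith)
    exact mul_nonneg (by positivity) (h_nonneg _ _)
  | insert i T hp ih =>
    have ih' := ih (fun q hq => hT q (mem_insert_of_mem hq))
    obtain ⟨B, hB, hBm, hNR⟩ := hT i (mem_insert_self _ _)
    have st := step A hA (mk T (Z g f)) (fun a => (QuotientAddGroup.mk (f i a) : V i ⧸ g i)) B hm
      hB hη hε hε1 (by convert hBm) hNR
    have e1 : h A (mk (insert i T) (Z g f)) =
        h A (fun u => (mk T (Z g f) u, (QuotientAddGroup.mk (f i u) : V i ⧸ g i))) := by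
      rw [h_mk_insert]
      refine h_congr fun a _ b _ => ?_
      rw [Prod.mk.injEq, Prod.mk.injEq, Z_eq_iff]
    have e2 : h (A ×ˢ A) (fun s => mk (insert i T) (Z g f) s.1 + mk (insert i T) (Z g f) s.2) =
        h (A ×ˢ A) (fun s => (mk T (Z g f) s.1 + mk T (Z g f) s.2,
          (QuotientAddGroup.mk (f i s.1) : V i ⧸ g i) + QuotientAddGroup.mk (f i s.2))) := by
      refine h_congr fun s _ t _ => ?_
      rw [Prod.mk.injEq, ← mk_add, ← mk_add, ← mk_add, ← mk_add, mk_eq_iff, mk_eq_iff]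
      constructor
      · intro h1
        refine ⟨fun q hq => h1 q (mem_insert_of_mem hq), ?_⟩
        have h2 := h1 i (mem_insert_self _ _)
        simp only [Pi.add_apply] at h2
        exact Z_add_eq_iff.1 h2
      · rintro ⟨h1, h2⟩ q hq
        rcases mem_insert.1 hq with rfl | h3
        · simp only [Pi.add_apply]
          exact Z_add_eq_iff.2 h2
        · exact h1 q h3
    rw [e1, e2]
    have h3 : ∀ c a b d e : ℝ, a - b ≤ c * (d - e - (a - b)) → b ≤ c * (e - b) →
        a ≤ c * (d - a) := by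
      intro c a b d e h4 h5
      have : c * (d - a) = c * (d - e - (a - b)) + c * (e - b) := by ring
      linarith
    exact h3 _ _ _ _ _ st ih'

open Classical in
/-- the increment of the entropy is at most the logarithm of the doubling -/
theorem incr' {Γ : Type u} {W : Type w} [AddCommGroup Γ] [AddCommGroup W] {A : Finset Γ}
    (hA : A.Nonempty) (z : Γ → W)
    (hz : ∀ a ∈ A, ∀ b ∈ A, ∀ c ∈ A, ∀ d ∈ A, a + b = c + d → z a + z b = z c + z d) :
    h (A ×ˢ A) (fun s => z s.1 + z s.2) - h A z ≤ Real.log (A + A).card - Real.log A.card := by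
  have hN : (0 : ℝ) < A.card := by exact_mod_cast card_pos.2 hA
  obtain ⟨f, hfz⟩ : ∃ f : Γ × Γ → W, ∀ s, f s = z s.1 + z s.2 := ⟨_, fun _ => rfl⟩
  have hf : (fun s : Γ × Γ => z s.1 + z s.2) = f := by
    funext s
    rw [hfz]
  rw [hf]
  -- submodularity
  have h3 := submod (A ×ˢ A) f (fun s => (z s.1, s.2)) (fun s => s.1 + s.2) (by
    intro s _ t _ hst
    rw [Prod.mk.injEq] at hst
    rw [hfz, hfz, hst.1, hst.2])
  -- the four entropies
  have e1 : h (A ×ˢ A) (fun s : Γ × Γ => ((z s.1, s.2), s.1 + s.2)) =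
      2 * Real.log A.card := by
    unfold h
    have : ∀ s ∈ A ×ˢ A, (Real.log ((A ×ˢ A).card : ℝ) -
        Real.log (fc (A ×ˢ A) (fun s : Γ × Γ => ((z s.1, s.2), s.1 + s.2)) s : ℝ)) =
        2 * Real.log A.card := by
      intro s hs
      have h4 : fc (A ×ˢ A) (fun s : Γ × Γ => ((z s.1, s.2), s.1 + s.2)) s = 1 := by
        unfold fc
        rw [card_eq_one]
        refine ⟨s, ?_⟩
        ext t
        rw [mem_cl, mem_singleton]
        constructor
        · rintro ⟨-, h5⟩
          rw [Prod.mk.injEq, Prod.mk.injEq] at h5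
          have h6 : t.1 = s.1 := by
            have := h5.2
            rw [h5.1.2] at this
            exact add_right_cancel this
          exact Prod.ext h6 h5.1.2
        · rintro rfl
          exact ⟨hs, rfl⟩
      rw [h4, card_product, Nat.cast_mul, Real.log_mul hN.ne' hN.ne', Nat.cast_one, Real.log_one]
      ring
    rw [sum_congr rfl this, sum_const, nsmul_eq_mul, card_product]
    push_cast
    field_simp
  have e2 : h (A ×ˢ A) (fun s : Γ × Γ => (z s.1, s.2)) = h A z + Real.log A.card := by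
    unfold h
    have : ∀ s ∈ A ×ˢ A, (Real.log ((A ×ˢ A).card : ℝ) -
        Real.log (fc (A ×ˢ A) (fun s : Γ × Γ => (z s.1, s.2)) s : ℝ)) =
        (Real.log A.card - Real.log (fc A z s.1)) + Real.log A.card := by
      intro s hs
      rw [mem_product] at hs
      have h4 : fc (A ×ˢ A) (fun s : Γ × Γ => (z s.1, s.2)) s = fc A z s.1 := by
        unfold fc
        have h5 := cl_prod A A z (fun b : Γ => b) s
        rw [h5, card_product]
        have h6 : (cl A (fun b : Γ => b) s.2).card = 1 := by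
          rw [card_eq_one]
          refine ⟨s.2, ?_⟩
          ext t
          rw [mem_cl, mem_singleton]
          exact ⟨fun h7 => h7.2, fun h7 => ⟨h7 ▸ hs.2, h7⟩⟩
        rw [h6, mul_one]
      rw [h4, card_product, Nat.cast_mul, Real.log_mul hN.ne' hN.ne']
      ring
    rw [sum_congr rfl this, sum_product, card_product]
    simp only [sum_const, nsmul_eq_mul, ← mul_sum]
    rw [sum_add_distrib, sum_const, nsmul_eq_mul]
    push_cast
    field_simp
  have e3 : h (A ×ˢ A) (fun s : Γ × Γ => (f s, s.1 + s.2)) ≤ Real.log (A + A).card := by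
    have h4 : h (A ×ˢ A) (fun s : Γ × Γ => (f s, s.1 + s.2)) =
        h (A ×ˢ A) (fun s : Γ × Γ => s.1 + s.2) := by
      refine h_congr fun s hs t ht => ?_
      rw [mem_product] at hs ht
      rw [Prod.mk.injEq]
      refine ⟨fun h5 => h5.2, fun h5 => ⟨?_, h5⟩⟩
      rw [hfz, hfz]
      exact hz _ hs.1 _ hs.2 _ ht.1 _ ht.2 h5
    rw [h4]
    exact h_le_log (hA.product hA) _
  rw [e1, e2] at h3
  linarith

open Classical in
/-- the joint coordinate -/
theorem coords {Γ : Type u} [AddCommGroup Γ] {ι : Type w} [hι : Nonempty ι] {V : ι → Type v}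
    [∀ i, AddCommGroup (V i)] {A : Finset Γ} (hA : A.Nonempty) {m n : ℕ} (hm : 1 ≤ m) {η : ℝ}
    (hη : 0 < η) (f : ∀ i, Γ → V i)
    (hf : ∀ i, ∀ a ∈ A, ∀ b ∈ A, ∀ c ∈ A, ∀ d ∈ A, a + b = c + d → f i a + f i b = f i c + f i d)
    (hF : ∀ i, ∃ B : Finset (V i), B.card ≤ m ∧
      ((m : ℝ) / (n + 1) + η) * A.card ≤ (A.filter fun a => f i a ∈ B).card) :
    ∃ (W : Type (max v w)) (_ : AddCommGroup W) (z : Γ → W),
      (∀ a ∈ A, ∀ b ∈ A, ∀ c ∈ A, ∀ d ∈ A, a + b = c + d → z a + z b = z c + z d) ∧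
      h A z ≤ 2 * 10 ^ 10 / η ^ 4 * Real.log (2 * m) *
        (h (A ×ˢ A) (fun s => z s.1 + z s.2) - h A z) ∧
      ∀ a ∈ A, ∀ b ∈ A, z a = z b → ∀ i, mult n η • f i a = mult n η • f i b := by
  have hN : (0 : ℝ) < A.card := by exact_mod_cast card_pos.2 hA
  obtain ⟨i₀⟩ := hι
  obtain ⟨ε, hε⟩ : ∃ ε, (m : ℝ) / (n + 1) + η = ε := ⟨_, rfl⟩
  have hε1 : ε ≤ 1 := by
    obtain ⟨B, -, h1⟩ := hF i₀
    rw [hε] at h1
    have h2 : ((A.filter fun a => f i₀ a ∈ B).card : ℝ) ≤ A.card := by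
      exact_mod_cast card_filter_le _ _
    have h3 : ε * A.card ≤ 1 * A.card := by linarith
    exact le_of_mul_le_mul_right h3 hN
  have hηε : η ≤ ε := by
    have : (0 : ℝ) ≤ (m : ℝ) / (n + 1) := by positivity
    linarith
  have hmn : m ≤ n := by
    have h1 : (m : ℝ) / (n + 1) < 1 := by linarith
    rw [div_lt_one (by positivity)] at h1
    have h2 : m < n + 1 := by exact_mod_cast h1
    omega
  -- the enlargements
  have hG' : ∀ i, ∃ G' : AddSubgroup (V i), (∀ x ∈ G', mult n η • x = 0) ∧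
      ∃ B : Finset (V i ⧸ G'), B.card ≤ m ∧
      ε * A.card ≤ (A.filter fun a => (QuotientAddGroup.mk (f i a) : V i ⧸ G') ∈ B).card ∧
      ∀ K : AddSubgroup (V i ⧸ G'), Finite K → K ≠ ⊥ → Nat.card K ≤ n →
        pot A (fun a => (QuotientAddGroup.mk (f i a) : V i ⧸ G')) (ε / (4 * m * n)) -
          pot A (fun a => (QuotientAddGroup.mk (QuotientAddGroup.mk (f i a) : V i ⧸ G') :
            (V i ⧸ G') ⧸ K)) (ε / (4 * m * n)) <
          A.card * (ε / 6 * Real.log (Nat.card K)) := by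
    intro i
    obtain ⟨B, hB, hAB⟩ := hF i
    rw [hε] at hAB
    obtain ⟨G', h1, h2⟩ := exists_max' A hA (f i) hm hmn hη hηε hε1
    refine ⟨G', h1, B.image (fun b => (QuotientAddGroup.mk b : V i ⧸ G')),
      card_image_le.trans hB, hAB.trans ?_, h2⟩
    have h3 : (A.filter fun a => f i a ∈ B) ⊆ A.filter fun a =>
        (QuotientAddGroup.mk (f i a) : V i ⧸ G') ∈
          B.image (fun b => (QuotientAddGroup.mk b : V i ⧸ G')) := by
      intro a ha
      rw [mem_filter] at ha ⊢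
      exact ⟨ha.1, mem_image_of_mem _ ha.2⟩
    exact_mod_cast card_le_card h3
  choose g hg hg2 using hG'
  -- finitely many coordinates separate the elements
  have hsep : ∀ s : Γ × Γ, ∃ i, (∃ j, mult n η • f j s.1 ≠ mult n η • f j s.2) →
      mult n η • f i s.1 ≠ mult n η • f i s.2 := by
    intro s
    by_cases hs : ∃ j, mult n η • f j s.1 ≠ mult n η • f j s.2
    · obtain ⟨j, hj⟩ := hs
      exact ⟨j, fun _ => hj⟩
    · exact ⟨i₀, fun h => absurd h hs⟩
  choose I hI using hsep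
  obtain ⟨T, hT⟩ : ∃ T : Finset ι, T = (A ×ˢ A).image I := ⟨_, rfl⟩
  have h1 := multi' hA hm hη (le_of_eq hε) hε1 g f T (fun i _ => hg2 i)
  refine ⟨ι → ∀ j, V j ⧸ g j, inferInstance, mk T (Z g f), ?_, h1, ?_⟩
  · intro a ha b hb c hc d hd habcd
    show mk T (Z g f) (a, b).1 + mk T (Z g f) (a, b).2 =
      mk T (Z g f) (c, d).1 + mk T (Z g f) (c, d).2
    rw [← mk_add, ← mk_add, mk_eq_iff]
    intro i _
    simp only [Pi.add_apply]
    rw [Z_add_eq_iff, ← QuotientAddGroup.mk_add, ← QuotientAddGroup.mk_add,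
      hf i a ha b hb c hc d hd habcd]
  · intro a ha b hb hab i
    by_contra hcon
    have h5 := hI (a, b) ⟨i, hcon⟩
    refine h5 ?_
    have h6 : I (a, b) ∈ T := by
      rw [hT]
      exact mem_image_of_mem _ (mem_product.2 ⟨ha, hb⟩)
    rw [mk_eq_iff] at hab
    have h8 := hg _ _ (Z_eq_iff'.1 (hab _ h6))
    rw [nsmul_sub, sub_eq_zero] at h8
    exact h8

end Pool.Agent.Run7.h127.PS
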