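import Pool.Agent.Run7.h127.PS.Step

/-!
# Enlarging a subgroup so that the resulting coordinate has no large drops
-/

set_option autoImplicit false
set_option linter.unusedSectionVars false

namespace Pool.Agent.Run7.h127.PS

open Finset
open Pool.Agent.Run7.h127.FV
open Pool.Agent.Y359.PE (h fc cl mem_cl fc_posR fc_pos fc_le fc_congr h_nonneg h_congr h_const
  h_le_log submod chain avg_cl)
open scoped Classical

universe u

/-- the multiplier `lcm(1, …, n) ^ ⌈40 / η ^ 2⌉` -/
noncomputable def mult (n : ℕ) (η : ℝ) : ℕ := Nat.lcmUpto n ^ ⌈40 / η ^ 2⌉₊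

lemma mult_pos (n : ℕ) (η : ℝ) : 0 < mult n η := pow_pos (Nat.lcmUpto_pos _) _

lemma log_two_gt : (69 / 100 : ℝ) < Real.log 2 := by
  have := Real.log_two_gt_d9
  norm_num at this ⊢
  linarith

lemma dvd_mult {m n r : ℕ} {η ε : ℝ} (hm : 1 ≤ m) (hmn : m ≤ n) (hη : 0 < η) (hηε : η ≤ ε)
    (hε1 : ε ≤ 1) (hr0 : r ≠ 0) (hr : Real.log r ≤ 6 / ε * Real.log (4 * m * n / ε))
    (hp : ∀ p : ℕ, p.Prime → p ∣ r → p ≤ n) : r ∣ mult n η := by
  have hε0 : 0 < ε := by linarith
  have hη1 : η ≤ 1 := by linarith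
  have hm0 : (0 : ℝ) < m := by exact_mod_cast hm
  have hn1 : 1 ≤ n := hm.trans hmn
  have hn0 : (0 : ℝ) < n := by exact_mod_cast hn1
  rw [← Nat.factorization_le_iff_dvd hr0 (mult_pos n η).ne', Finsupp.le_def]
  intro p
  by_cases hpp : p.Prime
  · by_cases hpr : p ∣ r
    · unfold mult
      rw [Nat.factorization_pow, Finsupp.smul_apply, smul_eq_mul, Nat.factorization_lcmUpto _ hpp]
      have hp2 := hp p hpp hpr
      obtain ⟨a, ha⟩ : ∃ a, a = Nat.log p n := ⟨_, rfl⟩
      have ha1 : 1 ≤ a := by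
        rw [ha]
        exact Nat.le_log_of_pow_le hpp.one_lt (by rw [pow_one]; exact hp2)
      have ha1' : (1 : ℝ) ≤ a := by exact_mod_cast ha1
      rw [← ha]
      obtain ⟨l, hl⟩ : ∃ l, l = Real.log p := ⟨_, rfl⟩
      have hl2 : 69 / 100 < l := by
        refine lt_of_lt_of_le log_two_gt ?_
        rw [hl]
        exact Real.log_le_log (by norm_num) (by exact_mod_cast hpp.two_le)
      have hal : 69 / 100 < a * l := by nlinarith
      have hal2 : Real.log 2 ≤ a * l := by
        have h1 : Real.log 2 ≤ l := by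
          rw [hl]
          exact Real.log_le_log (by norm_num) (by exact_mod_cast hpp.two_le)
        nlinarith
      -- the logarithm of `n`
      have h1 : Real.log n ≤ 2 * (a * l) := by
        have h2 : n < p ^ (a + 1) := by
          rw [ha]
          exact Nat.lt_pow_succ_log_self hpp.one_lt _
        have h3 : Real.log n ≤ Real.log ((p : ℝ) ^ (a + 1)) :=
          Real.log_le_log hn0 (by exact_mod_cast h2.le)
        rw [Real.log_pow, ← hl] at h3
        push_cast at h3
        have h4 : (a + 1) * l ≤ (2 * a) * l := mul_le_mul_of_nonneg_right (by linarith) (by linarith)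
        linarith
      have h2 : Real.log m ≤ 2 * (a * l) :=
        (Real.log_le_log hm0 (by exact_mod_cast hmn)).trans h1
      have h3 : Real.log (4 * m * n / ε) ≤ 6 / η * (a * l) := by
        have h4 : Real.log (4 * m * n / ε) = Real.log 4 + Real.log m + Real.log n +
            Real.log (1 / ε) := by
          rw [← Real.log_mul (by norm_num) hm0.ne', ← Real.log_mul (by positivity) hn0.ne',
            ← Real.log_mul (by positivity) (by positivity)]
          congr 1
          field_simp
        have h5 : Real.log 4 = 2 * Real.log 2 := by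
          rw [show (4 : ℝ) = 2 ^ 2 by norm_num, Real.log_pow]
          norm_num
        have h6 : Real.log (1 / ε) ≤ 1 / η - 1 := by
          have h7 := Real.log_le_sub_one_of_pos (show 0 < 1 / ε by positivity)
          have h8 : 1 / ε ≤ 1 / η := one_div_le_one_div_of_le hη hηε
          linarith
        have h9 : 0 ≤ 1 / η - 1 := by
          rw [sub_nonneg, le_div_iff₀ hη]
          linarith
        have h10 : 1 / η - 1 ≤ (1 / η - 1) * (3 / 2 * (a * l)) := by
          have : 1 ≤ 3 / 2 * (a * l) := by linarith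
          nlinarith
        have h11 : 6 / η * (a * l) = (6 * (1 / η - 1) + 6) * (a * l) := by
          field_simp
          ring
        rw [h4, h5, h11]
        have h12 : 0 ≤ (1 / η - 1) * (a * l) := mul_nonneg h9 (by linarith)
        nlinarith
      have h4 : Real.log r ≤ 40 / η ^ 2 * (a * l) := by
        refine hr.trans ?_
        have h5 : 0 ≤ 6 / η * (a * l) := by
          have : 0 ≤ a * l := by linarith
          positivity
        calc 6 / ε * Real.log (4 * m * n / ε) ≤ 6 / ε * (6 / η * (a * l)) :=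
              mul_le_mul_of_nonneg_left h3 (by positivity)
          _ ≤ 6 / η * (6 / η * (a * l)) := by
              refine mul_le_mul_of_nonneg_right ?_ h5
              exact div_le_div_of_nonneg_left (by norm_num) hη hηε
          _ = 36 / η ^ 2 * (a * l) := by
              field_simp
              ring
          _ ≤ 40 / η ^ 2 * (a * l) := by
              refine mul_le_mul_of_nonneg_right ?_ (by linarith)
              exact div_le_div_of_nonneg_right (by norm_num) (by positivity)
      have h5 : (r.factorization p : ℝ) * l ≤ Real.log r := by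
        have h6 : p ^ (r.factorization p) ≤ r := Nat.ordProj_le p hr0
        have h7 : Real.log ((p : ℝ) ^ (r.factorization p)) ≤ Real.log r :=
          Real.log_le_log (pow_pos (by exact_mod_cast hpp.pos) _) (by exact_mod_cast h6)
        rwa [Real.log_pow, ← hl] at h7
      have h6 : (r.factorization p : ℝ) ≤ ⌈40 / η ^ 2⌉₊ * a := by
        have h7 : (r.factorization p : ℝ) * l ≤ (40 / η ^ 2 * a) * l := by linarith
        have h8 : (r.factorization p : ℝ) ≤ 40 / η ^ 2 * a :=
          le_of_mul_le_mul_right h7 (by linarith)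
        exact h8.trans (mul_le_mul_of_nonneg_right (Nat.le_ceil _) (by linarith))
      exact_mod_cast h6
    · rw [Nat.factorization_eq_zero_of_not_dvd hpr]
      exact Nat.zero_le _
  · rw [Nat.factorization_eq_zero_of_not_prime _ hpp]
    exact Nat.zero_le _

/-- **The maximal enlargement.** -/
theorem exists_max {Γ : Type u} [AddCommGroup Γ] (A : Finset Γ) (hA : A.Nonempty)
    (G : AddSubgroup Γ) {m n : ℕ} (hm : 1 ≤ m) (hmn : m ≤ n) {η ε : ℝ} (hη : 0 < η)
    (hηε : η ≤ ε) (hε1 : ε ≤ 1) :
    ∃ G' : AddSubgroup Γ, G ≤ G' ∧ (∀ x ∈ G', mult n η • x ∈ G) ∧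
      ∀ K : AddSubgroup (Γ ⧸ G'), Finite K → K ≠ ⊥ → Nat.card K ≤ n →
        pot A (fun a => (QuotientAddGroup.mk a : Γ ⧸ G')) (ε / (4 * m * n)) -
          pot A (fun a => (QuotientAddGroup.mk (QuotientAddGroup.mk a : Γ ⧸ G') :
            (Γ ⧸ G') ⧸ K)) (ε / (4 * m * n)) <
          A.card * (ε / 6 * Real.log (Nat.card K)) := by
  have hN : (0 : ℝ) < A.card := by exact_mod_cast card_pos.2 hA
  have hε0 : 0 < ε := by linarith
  have hm0 : (1 : ℝ) ≤ m := by exact_mod_cast hm
  have hn0 : (1 : ℝ) ≤ n := by exact_mod_cast hm.trans hmn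
  obtain ⟨κ, hκ⟩ : ∃ κ, κ = ε / (4 * m * n) := ⟨_, rfl⟩
  rw [← hκ]
  have hκ0 : 0 < κ := by
    rw [hκ]
    positivity
  have hκ1 : κ ≤ 1 := by
    rw [hκ, div_le_one (by positivity)]
    nlinarith
  obtain ⟨Ψ, hΨ⟩ : ∃ Ψ : AddSubgroup Γ → ℝ,
    ∀ H, Ψ H = pot A (fun a => (QuotientAddGroup.mk a : Γ ⧸ H)) κ := ⟨_, fun _ => rfl⟩
  have hΨ0 : ∀ H, 0 ≤ Ψ H := fun H => by
    rw [hΨ]
    exact pot_nonneg _ _ hκ1
  set P : AddSubgroup Γ → Prop := fun H => G ≤ H ∧ G.relIndex H ≠ 0 ∧
    (∀ p : ℕ, p.Prime → p ∣ G.relIndex H → p ≤ n) ∧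
    Ψ H + A.card * (ε / 6 * Real.log (G.relIndex H)) ≤ Ψ G with hP
  have hPG : P G := by
    refine ⟨le_refl _, ?_, ?_, ?_⟩
    · rw [AddSubgroup.relIndex_self]
      exact one_ne_zero
    · intro p hp hd
      rw [AddSubgroup.relIndex_self] at hd
      exact absurd (Nat.dvd_one.1 hd) hp.one_lt.ne'
    · rw [AddSubgroup.relIndex_self, Nat.cast_one, Real.log_one, mul_zero, mul_zero, add_zero]
  -- the upper bound for the index
  have hlog : ∀ H, P H → Real.log (G.relIndex H) ≤ 6 / ε * Real.log (4 * m * n / ε) := by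
    rintro H ⟨-, -, -, h4⟩
    have h5 : Ψ G ≤ A.card * (-Real.log κ) := by
      rw [hΨ]
      exact pot_le hA _ hκ0
    have h6 : (A.card : ℝ) * (ε / 6 * Real.log (G.relIndex H)) ≤ A.card * (-Real.log κ) := by
      have := hΨ0 H
      linarith
    have h7 := le_of_mul_le_mul_left h6 hN
    have h8 : -Real.log κ = Real.log (4 * m * n / ε) := by
      rw [← Real.log_inv, hκ, inv_div]
    rw [h8] at h7
    have h9 : Real.log (G.relIndex H) = 6 / ε * (ε / 6 * Real.log (G.relIndex H)) := by
      field_simp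
    rw [h9]
    exact mul_le_mul_of_nonneg_left h7 (by positivity)
  have hbd : ∀ H, P H → G.relIndex H ≤ ⌈Real.exp (6 / ε * Real.log (4 * m * n / ε))⌉₊ := by
    intro H hH
    have h1 := hlog H hH
    have h2 : (0 : ℝ) < G.relIndex H := by exact_mod_cast Nat.pos_of_ne_zero hH.2.1
    have h3 : (G.relIndex H : ℝ) ≤ Real.exp (6 / ε * Real.log (4 * m * n / ε)) := by
      rw [← Real.log_le_iff_le_exp h2]
      exact h1
    have h4 := h3.trans (Nat.le_ceil _)
    exact_mod_cast h4
  -- a maximal index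
  obtain ⟨r, ⟨G', hPG', hr⟩, hmax⟩ : ∃ r, (∃ H, P H ∧ G.relIndex H = r) ∧
      ∀ r', (∃ H, P H ∧ G.relIndex H = r') → r' ≤ r := by
    have hne : ∃ r, ∃ H, P H ∧ G.relIndex H = r := ⟨_, G, hPG, rfl⟩
    have hb : ∀ r, (∃ H, P H ∧ G.relIndex H = r) →
        r ≤ ⌈Real.exp (6 / ε * Real.log (4 * m * n / ε))⌉₊ := by
      rintro r ⟨H, hH, rfl⟩
      exact hbd H hH
    refine ⟨Nat.findGreatest (fun r => ∃ H, P H ∧ G.relIndex H = r)
      (⌈Real.exp (6 / ε * Real.log (4 * m * n / ε))⌉₊), ?_, ?_⟩
    · obtain ⟨r, hr⟩ := hne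
      exact Nat.findGreatest_spec (P := fun r => ∃ H, P H ∧ G.relIndex H = r) (hb r hr) hr
    · intro r' hr'
      exact Nat.le_findGreatest (hb r' hr') hr'
  have hPG'' := hPG'
  obtain ⟨g1, g2, g3, g4⟩ := hPG'
  refine ⟨G', g1, ?_, ?_⟩
  · intro x hx
    obtain ⟨c, hc⟩ := dvd_mult hm hmn hη hηε hε1 g2 (hlog G' hPG'') g3
    have h1 : G.relIndex G' • x ∈ G := by
      have := AddSubgroup.nsmul_index_mem (G.addSubgroupOf G') (⟨x, hx⟩ : G')
      rw [AddSubgroup.mem_addSubgroupOf] at this
      exact this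
    rw [hc, mul_nsmul]
    exact G.nsmul_mem h1 c
  · intro K hKf hK hK2
    by_contra hcon
    push Not at hcon
    obtain ⟨G'', hG''⟩ : ∃ G'', G'' = K.comap (QuotientAddGroup.mk' G') := ⟨_, rfl⟩
    have hmem : ∀ x, x ∈ G'' ↔ (QuotientAddGroup.mk x : Γ ⧸ G') ∈ K := by
      intro x
      rw [hG'', AddSubgroup.mem_comap]
      rfl
    have h1 : G' ≤ G'' := by
      intro x hx
      rw [hmem, (QuotientAddGroup.eq_zero_iff x).2 hx]
      exact K.zero_mem
    have h2 : G'.relIndex G'' = Nat.card K := by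
      have e1 := AddSubgroup.relIndex_ker (K := G'') (QuotientAddGroup.mk' G')
      rw [QuotientAddGroup.ker_mk'] at e1
      rw [e1, hG'', AddSubgroup.map_comap_eq_self_of_surjective (QuotientAddGroup.mk'_surjective G')]
    have h3 : G.relIndex G'' = G.relIndex G' * Nat.card K := by
      rw [← h2]
      exact (AddSubgroup.relIndex_mul_relIndex G G' G'' g1 h1).symm
    have hK1 : 1 < Nat.card K := by
      have := (AddSubgroup.one_lt_card_iff_ne_bot K).2 hK
      exact this
    have h4 : P G'' := by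
      refine ⟨g1.trans h1, ?_, ?_, ?_⟩
      · rw [h3]
        exact mul_ne_zero g2 (by omega)
      · intro p hp hd
        rw [h3] at hd
        rcases (Nat.Prime.dvd_mul hp).1 hd with hd | hd
        · exact g3 p hp hd
        · exact (Nat.le_of_dvd (by omega) hd).trans hK2
      · have e1 : pot A (fun a => (QuotientAddGroup.mk (QuotientAddGroup.mk a : Γ ⧸ G') :
            (Γ ⧸ G') ⧸ K)) κ = pot A (fun a => (QuotientAddGroup.mk a : Γ ⧸ G'')) κ := by
          refine pot_congr fun a _ b _ => ?_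
          rw [QuotientAddGroup.eq, QuotientAddGroup.eq, hmem]
          rfl
        rw [e1, ← hΨ, ← hΨ] at hcon
        have e4 : Real.log (G.relIndex G'') = Real.log (G.relIndex G') + Real.log (Nat.card K) := by
          rw [h3, Nat.cast_mul, Real.log_mul]
          · exact_mod_cast g2
          · exact_mod_cast (show Nat.card K ≠ 0 by omega)
        rw [e4]
        linarith
    have h5 := hmax _ ⟨G'', h4, rfl⟩
    rw [h3, ← hr] at h5
    have h6 : 0 < G.relIndex G' := Nat.pos_of_ne_zero g2
    nlinarith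

end Pool.Agent.Run7.h127.PS
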