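import Pool.Agent.Run7.h127.PS.Max
import Pool.Agent.Run7.h127.FV.Multi

/-!
# Sets of small doubling and popular cosets of many subgroups
-/

set_option autoImplicit false
set_option linter.unusedSectionVars false

namespace Pool.Agent.Run7.h127.PS

open Finset
open Pool.Agent.Run7.h127.FV (X X_eq_iff X_eq_iff' X_add incr)
open Pool.Agent.Y359.PE (h fc cl mem_cl fc_posR fc_pos fc_le fc_congr h_nonneg h_congr h_const
  h_le_log submod chain avg_cl mk mk_eq_iff h_mk_insert mk_add cl_prod)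
open scoped Pointwise

universe u

open Classical in
/-- the entropy of many coordinates is at most a constant times the increment -/
theorem multi {Γ : Type u} [AddCommGroup Γ] {A : Finset Γ} (hA : A.Nonempty) {m n : ℕ}
    (hm : 1 ≤ m) {η ε : ℝ} (hη : 0 < η) (hε : (m : ℝ) / (n + 1) + η ≤ ε) (hε1 : ε ≤ 1)
    (g : AddSubgroup Γ → AddSubgroup Γ) (T : Finset (AddSubgroup Γ))
    (hT : ∀ G ∈ T, ∃ B : Finset (Γ ⧸ g G), B.card ≤ m ∧
      ε * A.card ≤ (A.filter fun a => (QuotientAddGroup.mk a : Γ ⧸ g G) ∈ B).card ∧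
      ∀ K : AddSubgroup (Γ ⧸ g G), Finite K → K ≠ ⊥ → Nat.card K ≤ n →
        pot A (fun a => (QuotientAddGroup.mk a : Γ ⧸ g G)) (ε / (4 * m * n)) -
          pot A (fun a => (QuotientAddGroup.mk (QuotientAddGroup.mk a : Γ ⧸ g G) :
            (Γ ⧸ g G) ⧸ K)) (ε / (4 * m * n)) <
          A.card * (ε / 6 * Real.log (Nat.card K))) :
    h A (mk T (X g)) ≤ 2 * 10 ^ 10 / η ^ 4 * Real.log (2 * m) *
      (h (A ×ˢ A) (fun s => mk T (X g) s.1 + mk T (X g) s.2) - h A (mk T (X g))) := by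
  induction T using Finset.induction_on with
  | empty =>
    have e2 : h A (mk ∅ (X g)) = 0 := by
      refine h_const _ _ fun x _ y _ => ?_
      rw [mk_eq_iff]
      intro p hp
      exact absurd hp (notMem_empty _)
    rw [e2, sub_zero]
    have h1 : 0 ≤ Real.log (2 * m) := Real.log_nonneg (by
      have : (1 : ℝ) ≤ m := by exact_mod_cast hm
      linarith)
    exact mul_nonneg (by positivity) (h_nonneg _ _)
  | insert G T hp ih =>
    have ih' := ih (fun q hq => hT q (mem_insert_of_mem hq))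
    obtain ⟨B, hB, hBm, hNR⟩ := hT G (mem_insert_self _ _)
    have st := step A hA (mk T (X g)) (fun a => (QuotientAddGroup.mk a : Γ ⧸ g G)) B hm hB hη hε
      hε1 (by convert hBm) hNR
    have e1 : h A (mk (insert G T) (X g)) =
        h A (fun u => (mk T (X g) u, (QuotientAddGroup.mk u : Γ ⧸ g G))) := by
      rw [h_mk_insert]
      refine h_congr fun a _ b _ => ?_
      rw [Prod.mk.injEq, Prod.mk.injEq, X_eq_iff]
    have e2 : h (A ×ˢ A) (fun s => mk (insert G T) (X g) s.1 + mk (insert G T) (X g) s.2) =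
        h (A ×ˢ A) (fun s => (mk T (X g) s.1 + mk T (X g) s.2,
          (QuotientAddGroup.mk s.1 : Γ ⧸ g G) + QuotientAddGroup.mk s.2)) := by
      refine h_congr fun s _ t _ => ?_
      rw [Prod.mk.injEq, ← mk_add, ← mk_add, ← mk_add, ← mk_add, mk_eq_iff, mk_eq_iff]
      constructor
      · intro h1
        refine ⟨fun q hq => h1 q (mem_insert_of_mem hq), ?_⟩
        have h2 := h1 G (mem_insert_self _ _)
        simp only [Pi.add_apply] at h2
        rw [X_add, X_add, X_eq_iff] at h2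
        exact h2
      · rintro ⟨h1, h2⟩ q hq
        rcases mem_insert.1 hq with rfl | h3
        · simp only [Pi.add_apply]
          rw [X_add, X_add, X_eq_iff]
          exact h2
        · exact h1 q h3
    rw [e1, e2]
    have h3 : ∀ c a b d e : ℝ, a - b ≤ c * (d - e - (a - b)) → b ≤ c * (e - b) →
        a ≤ c * (d - a) := by
      intro c a b d e h4 h5
      have : c * (d - a) = c * (d - e - (a - b)) + c * (e - b) := by ring
      linarith
    exact h3 _ _ _ _ _ st ih'

open Classical in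
/-- **Popular cosets.** -/
theorem inter {Γ : Type u} [AddCommGroup Γ] {A : Finset Γ} (hA : A.Nonempty) {K : ℝ}
    (hK : ((A + A).card : ℝ) ≤ K * A.card) {m n : ℕ} (hm : 1 ≤ m) {η : ℝ} (hη : 0 < η)
    (F : Set (AddSubgroup Γ))
    (hF : ∀ G ∈ F, ∃ B : Finset Γ, B.card ≤ m ∧
      ((m : ℝ) / (n + 1) + η) * A.card ≤ (A.filter fun a => ∃ b ∈ B, a - b ∈ G).card) :
    ∃ g ∈ A, (A.card : ℝ) ≤ K ^ (2 * 10 ^ 10 / η ^ 4 * Real.log (2 * m)) *
      (A.filter fun a => mult n η • (a - g) ∈ sInf F).card := by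
  have hN : (0 : ℝ) < A.card := by exact_mod_cast card_pos.2 hA
  have hAA : (A.card : ℝ) ≤ (A + A).card := by
    exact_mod_cast card_le_card_add_right hA
  have hK1 : 1 ≤ K := by nlinarith
  have hm1 : (1 : ℝ) ≤ m := by exact_mod_cast hm
  have hc0 : 0 ≤ 2 * 10 ^ 10 / η ^ 4 * Real.log (2 * m) := by
    have : 0 ≤ Real.log (2 * m) := Real.log_nonneg (by linarith)
    positivity
  -- the trivial case
  rcases F.eq_empty_or_nonempty with hF0 | ⟨G₀, hG₀⟩
  · obtain ⟨g, hg⟩ := hA
    refine ⟨g, hg, ?_⟩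
    have h1 : (A.filter fun a => mult n η • (a - g) ∈ sInf F) = A := by
      refine filter_true_of_mem fun a _ => ?_
      rw [hF0, sInf_empty]
      exact AddSubgroup.mem_top _
    rw [h1]
    exact le_mul_of_one_le_left hN.le (Real.one_le_rpow hK1 hc0)
  obtain ⟨ε, hε⟩ : ∃ ε, (m : ℝ) / (n + 1) + η = ε := ⟨_, rfl⟩
  have hε1 : ε ≤ 1 := by
    obtain ⟨B, -, h1⟩ := hF G₀ hG₀
    rw [hε] at h1
    have h2 : ((A.filter fun a => ∃ b ∈ B, a - b ∈ G₀).card : ℝ) ≤ A.card := by
      exact_mod_cast card_filter_le _ _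
    have h3 : ε * A.card ≤ 1 * A.card := by linarith
    exact le_of_mul_le_mul_right h3 hN
  have hηε : η ≤ ε := by
    have : (0 : ℝ) ≤ (m : ℝ) / (n + 1) := by positivity
    linarith
  have hmn : m ≤ n := by
    have h1 : (m : ℝ) / (n + 1) < 1 := by linarith
    rw [div_lt_one (by positivity)] at h1
    have h2 : m < n + 1 := by exact_mod_cast h1
    omega
  -- the enlargements
  have hG' : ∀ G : AddSubgroup Γ, ∃ G' : AddSubgroup Γ, G ∈ F → ((∀ x ∈ G', mult n η • x ∈ G) ∧
      ∃ B : Finset (Γ ⧸ G'), B.card ≤ m ∧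
      ε * A.card ≤ (A.filter fun a => (QuotientAddGroup.mk a : Γ ⧸ G') ∈ B).card ∧
      ∀ K : AddSubgroup (Γ ⧸ G'), Finite K → K ≠ ⊥ → Nat.card K ≤ n →
        pot A (fun a => (QuotientAddGroup.mk a : Γ ⧸ G')) (ε / (4 * m * n)) -
          pot A (fun a => (QuotientAddGroup.mk (QuotientAddGroup.mk a : Γ ⧸ G') :
            (Γ ⧸ G') ⧸ K)) (ε / (4 * m * n)) <
          A.card * (ε / 6 * Real.log (Nat.card K))) := by
    intro G
    by_cases hG : G ∈ F
    · obtain ⟨B, hB, hAB⟩ := hF G hG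
      rw [hε] at hAB
      obtain ⟨G', hGG', h1, h2⟩ := exists_max A hA G hm hmn hη hηε hε1
      refine ⟨G', fun _ => ⟨h1, B.image (fun b => (QuotientAddGroup.mk b : Γ ⧸ G')),
        card_image_le.trans hB, hAB.trans ?_, h2⟩⟩
      have h3 : (A.filter fun a => ∃ b ∈ B, a - b ∈ G) ⊆ A.filter fun a =>
          (QuotientAddGroup.mk a : Γ ⧸ G') ∈ B.image (fun b => (QuotientAddGroup.mk b : Γ ⧸ G')) := by
        intro a ha
        rw [mem_filter] at ha ⊢
        obtain ⟨h4, b, hb, hab⟩ := ha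
        refine ⟨h4, mem_image.2 ⟨b, hb, ?_⟩⟩
        rw [QuotientAddGroup.eq]
        have : -b + a = a - b := by abel
        rw [this]
        exact hGG' hab
      exact_mod_cast card_le_card h3
    · exact ⟨G, fun h => absurd h hG⟩
  choose g hg using hG'
  -- finitely many subgroups separate the elements
  have hsep : ∀ s : Γ × Γ, ∃ G : AddSubgroup Γ, mult n η • (s.1 - s.2) ∉ sInf F →
      G ∈ F ∧ mult n η • (s.1 - s.2) ∉ G := by
    intro s
    by_cases hs : mult n η • (s.1 - s.2) ∈ sInf F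
    · exact ⟨⊥, fun h => absurd hs h⟩
    · rw [AddSubgroup.mem_sInf] at hs
      push Not at hs
      obtain ⟨G, hG, h⟩ := hs
      exact ⟨G, fun _ => ⟨hG, h⟩⟩
  choose G hG using hsep
  obtain ⟨T, hT⟩ : ∃ T : Finset (AddSubgroup Γ),
    T = ((A ×ˢ A).filter fun s => mult n η • (s.1 - s.2) ∉ sInf F).image G := ⟨_, rfl⟩
  have hTF : ∀ H ∈ T, H ∈ F := by
    intro H hH
    rw [hT] at hH
    obtain ⟨s, hs, rfl⟩ := mem_image.1 hH
    exact (hG s (mem_filter.1 hs).2).1
  have h1 := multi hA hm hη (le_of_eq hε) hε1 g T (fun H hH => (hg H (hTF H hH)).2)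
  have h1' := incr hA g T
  obtain ⟨z, hz⟩ : ∃ z, z = mk T (X g) := ⟨_, rfl⟩
  rw [← hz] at h1 h1'
  have h2 : Real.log (A + A).card - Real.log A.card ≤ Real.log K := by
    rw [sub_le_iff_le_add, ← Real.log_mul (by linarith) hN.ne']
    exact Real.log_le_log (by linarith) hK
  have h3 : h A z ≤ 2 * 10 ^ 10 / η ^ 4 * Real.log (2 * m) * Real.log K :=
    h1.trans (mul_le_mul_of_nonneg_left (h1'.trans h2) hc0)
  -- a popular class
  obtain ⟨x, hx, hx2⟩ : ∃ x ∈ A, Real.log A.card - Real.log (fc A z x) ≤ h A z := by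
    by_contra hcon
    push Not at hcon
    have h4 := sum_lt_sum_of_nonempty hA hcon
    rw [sum_const, nsmul_eq_mul] at h4
    have h5 : h A z * A.card = ∑ x ∈ A, (Real.log A.card - Real.log (fc A z x)) := by
      unfold h
      field_simp
    linarith
  refine ⟨x, hx, ?_⟩
  have h4 : cl A z x ⊆ A.filter fun a => mult n η • (a - x) ∈ sInf F := by
    intro y hy
    rw [mem_cl, hz, mk_eq_iff] at hy
    rw [mem_filter]
    refine ⟨hy.1, ?_⟩
    by_contra hcon
    have h5 := hG (y, x) hcon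
    refine h5.2 ?_
    have h6 : G (y, x) ∈ T := by
      rw [hT]
      exact mem_image_of_mem _ (mem_filter.2 ⟨mem_product.2 ⟨hy.1, hx⟩, hcon⟩)
    exact (hg _ h5.1).1 _ (X_eq_iff'.1 (hy.2 _ h6))
  have h5 : (fc A z x : ℝ) ≤ (A.filter fun a => mult n η • (a - x) ∈ sInf F).card := by
    exact_mod_cast card_le_card h4
  have h6 := fc_posR (f := z) hx
  have h7 : Real.log A.card ≤
      Real.log (K ^ (2 * 10 ^ 10 / η ^ 4 * Real.log (2 * m)) * fc A z x) := by
    rw [Real.log_mul (by positivity) h6.ne', Real.log_rpow (by linarith)]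
    linarith
  have h8 := (Real.log_le_log_iff hN (by positivity)).1 h7
  exact h8.trans (mul_le_mul_of_nonneg_left h5 (by positivity))

end Pool.Agent.Run7.h127.PS
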