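import Pool.Agent.Run7.h127.FV.Drop

/-!
# Laws which are almost invariant under a finite subgroup, and the truncated entropy
-/

set_option autoImplicit false
set_option linter.unusedSectionVars false

namespace Pool.Agent.Run7.h127.PS

open Finset H112
open Pool.Agent.Run7.h127.FV
open Pool.Agent.Y359.PE (h fc cl mem_cl fc_posR fc_pos fc_le fc_congr h_nonneg cell_left cell_right
  cell_main nz h_congr h_const h_le_log submod chain avg_cl)
open scoped Classical

variable {α β γ δ : Type*} {V : Type*} [AddCommGroup V]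

/-- the mass of the coset of `w` -/
noncomputable def bar (p : AddMonoidAlgebra ℝ V) (c : Finset V) (w : V) : ℝ :=
  ∑ k ∈ c, p.coeff (w - k)

lemma bar_nonneg {p : AddMonoidAlgebra ℝ V} (hp : Law p) (c : Finset V) (w : V) :
    0 ≤ bar p c w := sum_nonneg fun _ _ => hp.1 _

lemma bar_le_one {p : AddMonoidAlgebra ℝ V} (hp : Law p) (c : Finset V) (w : V) :
    bar p c w ≤ 1 := by
  have h1 := law_sum_le_one hp (c.image fun k => w - k)
  rw [sum_image (fun a _ b _ hab => sub_right_injective hab)] at h1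
  exact h1

lemma l1_bar {p : AddMonoidAlgebra ℝ V} {c : Finset V} (hc : c.Nonempty) {t : ℝ}
    (hn : ∀ g ∈ c, Near p g t) (s : Finset V) :
    ∑ w ∈ s, |p.coeff w - bar p c w / c.card| ≤ t := by
  have hcp : (0 : ℝ) < c.card := by exact_mod_cast card_pos.2 hc
  have h1 : ∀ w ∈ s, |p.coeff w - bar p c w / c.card| ≤
      (∑ k ∈ c, |p.coeff (w - k) - p.coeff w|) / c.card := by
    intro w _
    have e1 : p.coeff w - bar p c w / c.card =
        -((∑ k ∈ c, (p.coeff (w - k) - p.coeff w)) / c.card) := by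
      unfold bar
      rw [sum_sub_distrib, sum_const, nsmul_eq_mul]
      field_simp
      ring
    rw [e1, abs_neg, abs_div, abs_of_pos hcp]
    exact div_le_div_of_nonneg_right (abs_sum_le_sum_abs _ _) hcp.le
  refine (sum_le_sum h1).trans ?_
  rw [← sum_div, sum_comm, div_le_iff₀ hcp]
  calc ∑ k ∈ c, ∑ v ∈ s, |p.coeff (v - k) - p.coeff v| ≤ ∑ k ∈ c, t :=
        sum_le_sum fun k hk => hn _ hk s
    _ = t * c.card := by
        rw [sum_const, nsmul_eq_mul, mul_comm]

/-- A small set has small mass. -/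
lemma mass_le {p : AddMonoidAlgebra ℝ V} (hp : Law p) {c : Finset V} (hc : c.Nonempty) {t : ℝ}
    (hn : ∀ g ∈ c, Near p g t) (B : Finset V) :
    ∑ v ∈ B, p.coeff v ≤ B.card / c.card + t := by
  have hcp : (0 : ℝ) < c.card := by exact_mod_cast card_pos.2 hc
  have h1 := l1_bar hc hn B
  have h2 : ∑ v ∈ B, p.coeff v ≤ ∑ v ∈ B, (1 / c.card + |p.coeff v - bar p c v / c.card|) := by
    refine sum_le_sum fun v _ => ?_
    have h3 := le_abs_self (p.coeff v - bar p c v / c.card)
    have h4 : bar p c v / c.card ≤ 1 / c.card :=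
      div_le_div_of_nonneg_right (bar_le_one hp c v) hcp.le
    linarith
  refine h2.trans ?_
  rw [sum_add_distrib, sum_const, nsmul_eq_mul, mul_one_div]
  linarith

/-- the truncated entropy -/
noncomputable def pot (A : Finset α) (f : α → β) (κ : ℝ) : ℝ :=
  ∑ a ∈ A, (Real.log A.card - Real.log (max (fc A f a : ℝ) (κ * A.card)))

lemma pot_nonneg (A : Finset α) (f : α → β) {κ : ℝ} (hκ : κ ≤ 1) : 0 ≤ pot A f κ := by
  refine sum_nonneg fun a ha => ?_
  rw [sub_nonneg]
  have h1 : (0 : ℝ) < fc A f a := fc_posR ha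
  refine Real.log_le_log (lt_max_of_lt_left h1) (max_le ?_ ?_)
  · exact_mod_cast card_le_card (filter_subset _ _)
  · have : (0 : ℝ) ≤ A.card := Nat.cast_nonneg _
    nlinarith

lemma pot_le {A : Finset α} (hA : A.Nonempty) (f : α → β) {κ : ℝ} (hκ : 0 < κ) :
    pot A f κ ≤ A.card * (-Real.log κ) := by
  have hN : (0 : ℝ) < A.card := by exact_mod_cast card_pos.2 hA
  unfold pot
  rw [← nsmul_eq_mul, ← sum_const]
  refine sum_le_sum fun a _ => ?_
  have h1 : Real.log (κ * A.card) ≤ Real.log (max (fc A f a : ℝ) (κ * A.card)) :=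
    Real.log_le_log (by positivity) (le_max_right _ _)
  rw [Real.log_mul hκ.ne' hN.ne'] at h1
  linarith

lemma pot_congr {A : Finset α} {f : α → β} {g : α → γ} {κ : ℝ}
    (hfg : ∀ a ∈ A, ∀ b ∈ A, f b = f a ↔ g b = g a) : pot A f κ = pot A g κ := by
  unfold pot
  refine sum_congr rfl fun a ha => ?_
  have : fc A f a = fc A g a := by
    unfold fc
    congr 1
    ext b
    rw [mem_cl, mem_cl]
    exact and_congr_right fun hb => hfg a ha b hb
  rw [this]

/-- **The drop of the truncated entropy modulo a subgroup under which the law is almost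
invariant.** -/
theorem drop_big {A : Finset α} (hA : A.Nonempty) (x : α → V) {K : AddSubgroup V} [Finite K]
    (hK : K ≠ ⊥) {t ε : ℝ} (hn : ∀ g ∈ K, Near (lw A x) g t) {B : Finset V} {m n : ℕ}
    (hm : 1 ≤ m) (hB : B.card ≤ m) (hε : 0 < ε)
    (hBm : ε * A.card ≤ (A.filter fun a => x a ∈ B).card) (hKn : Nat.card K ≤ n)
    (ht : 24 * t ≤ ε) :
    A.card * (ε / 6 * Real.log (Nat.card K)) ≤ pot A x (ε / (4 * m * n)) -
      pot A (fun a => (QuotientAddGroup.mk (x a) : V ⧸ K)) (ε / (4 * m * n)) := by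
  have hN : (0 : ℝ) < A.card := by exact_mod_cast card_pos.2 hA
  obtain ⟨N, hNd⟩ : ∃ N : ℝ, (A.card : ℝ) = N := ⟨_, rfl⟩
  obtain ⟨c, hc', hcc⟩ := cosetF K (0 : V)
  have hc : ∀ v, v ∈ c ↔ v ∈ K := fun v => by rw [hc', sub_zero]
  have hc0 : (0 : V) ∈ c := (hc 0).2 K.zero_mem
  have hcne : c.Nonempty := ⟨0, hc0⟩
  have hnc : ∀ g ∈ c, Near (lw A x) g t := fun g hg => hn g ((hc g).1 hg)
  have hp := law_lw hA x
  obtain ⟨p, hpd⟩ : ∃ p, lw A x = p := ⟨_, rfl⟩
  have hK2 : 2 ≤ Nat.card K := by
    have h1 : Nat.card K ≠ 1 := by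
      rw [Ne, AddSubgroup.card_eq_one]
      exact hK
    have h2 : 0 < Nat.card K := Nat.card_pos
    omega
  obtain ⟨k, hkd⟩ : ∃ k : ℝ, (Nat.card K : ℝ) = k := ⟨_, rfl⟩
  have hk2 : 2 ≤ k := by
    rw [← hkd]
    exact_mod_cast hK2
  have hkn : k ≤ n := by
    rw [← hkd]
    exact_mod_cast hKn
  have hm0 : (0 : ℝ) < m := by exact_mod_cast hm
  have hn0 : (0 : ℝ) < n := by linarith
  -- the two numbers
  obtain ⟨f, hf⟩ : ∃ f : α → ℝ, ∀ a, f a = N * p.coeff (x a) := ⟨_, fun _ => rfl⟩
  obtain ⟨g, hg⟩ : ∃ g : α → ℝ, ∀ a, g a = N * bar p c (x a) := ⟨_, fun _ => rfl⟩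
  have hfc : ∀ a, (fc A x a : ℝ) = f a := by
    intro a
    rw [hf, ← hpd, lw_apply, ← hNd, mul_div_cancel₀ _ hN.ne']
    rfl
  have hgc : ∀ a, (fc A (fun a => (QuotientAddGroup.mk (x a) : V ⧸ K)) a : ℝ) = g a := by
    intro a
    have e1 : bar p c (x a) = ∑ v ∈ c.image (fun k => x a - k), p.coeff v := by
      rw [sum_image (fun a _ b _ hab => sub_right_injective hab)]
      rfl
    rw [hg, e1, ← hpd, sum_lw, ← hNd, mul_div_cancel₀ _ hN.ne']
    have e2 : cl A (fun a => (QuotientAddGroup.mk (x a) : V ⧸ K)) a =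
        A.filter fun s => x s ∈ c.image (fun k => x a - k) := by
      ext s
      rw [mem_cl, mem_filter, QuotientAddGroup.eq, mem_image]
      refine and_congr_right fun _ => ?_
      constructor
      · intro h1
        exact ⟨-x s + x a, (hc _).2 h1, by abel⟩
      · rintro ⟨k, hk, h1⟩
        rw [← h1]
        have : -(x a - k) + x a = k := by abel
        rw [this]
        exact (hc k).1 hk
    unfold fc
    rw [e2]
  have hfpos : ∀ a ∈ A, 0 < f a := fun a ha => by
    rw [← hfc]
    exact fc_posR ha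
  have hfg : ∀ a, f a ≤ g a := by
    intro a
    rw [← hfc, ← hgc]
    have : cl A x a ⊆ cl A (fun a => (QuotientAddGroup.mk (x a) : V ⧸ K)) a := by
      intro s hs
      rw [mem_cl] at hs ⊢
      exact ⟨hs.1, by rw [hs.2]⟩
    exact_mod_cast card_le_card this
  -- the exceptional sets
  have hNpos : 0 < N := hNd ▸ hN
  have hcount : ∀ P : V → Prop, ((A.filter fun a => P (x a)).card : ℝ) =
      N * ∑ v ∈ (A.image x).filter P, p.coeff v := by
    intro P
    rw [← hpd, sum_lw, ← hNd, mul_div_cancel₀ _ hN.ne']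
    congr 2
    ext a
    rw [mem_filter, mem_filter, mem_filter]
    constructor
    · rintro ⟨h1, h2⟩
      exact ⟨h1, mem_image_of_mem x h1, h2⟩
    · rintro ⟨h1, -, h2⟩
      exact ⟨h1, h2⟩
  rw [hpd] at hnc hp
  have hckk : (c.card : ℝ) = k := by
    rw [hcc]
    exact hkd
  have hk0 : 0 < k := by linarith
  -- `Z₁`
  have hZ1 : ((A.filter fun a => 5 / 4 * g a < k * f a).card : ℝ) ≤ 5 * t * N := by
    have e1 : (A.filter fun a => 5 / 4 * g a < k * f a) =
        A.filter fun a => 5 / 4 * bar p c (x a) < k * p.coeff (x a) := by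
      refine filter_congr fun a _ => ?_
      rw [hf, hg]
      constructor
      · intro h1
        have h2 : N * (5 / 4 * bar p c (x a)) < N * (k * p.coeff (x a)) := by linarith
        exact lt_of_mul_lt_mul_left h2 hNpos.le
      · intro h1
        have h2 := mul_lt_mul_of_pos_left h1 hNpos
        linarith
    rw [e1, hcount (fun v => 5 / 4 * bar p c v < k * p.coeff v)]
    have h1 := l1_bar hcne hnc ((A.image x).filter fun v => 5 / 4 * bar p c v < k * p.coeff v)
    have h2 : ∑ v ∈ (A.image x).filter (fun v => 5 / 4 * bar p c v < k * p.coeff v), p.coeff v ≤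
        ∑ v ∈ (A.image x).filter (fun v => 5 / 4 * bar p c v < k * p.coeff v),
          5 * |p.coeff v - bar p c v / c.card| := by
      refine sum_le_sum fun v hv => ?_
      have h3 := (mem_filter.1 hv).2
      have h4 := le_abs_self (p.coeff v - bar p c v / c.card)
      rw [hckk] at h4 ⊢
      have h5 : bar p c v / k ≤ 4 / 5 * p.coeff v := by
        rw [div_le_iff₀ hk0]
        linarith
      linarith
    rw [← mul_sum] at h2
    calc N * ∑ v ∈ (A.image x).filter (fun v => 5 / 4 * bar p c v < k * p.coeff v), p.coeff v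
        ≤ N * (5 * t) := mul_le_mul_of_nonneg_left (by linarith) hNpos.le
      _ = 5 * t * N := by ring
  -- `Z₂`
  have hZ2 : ((A.filter fun a => 2 * (k * f a) < g a).card : ℝ) ≤ t * N := by
    have e1 : (A.filter fun a => 2 * (k * f a) < g a) =
        A.filter fun a => 2 * (k * p.coeff (x a)) < bar p c (x a) := by
      refine filter_congr fun a _ => ?_
      rw [hf, hg]
      constructor
      · intro h1
        have h2 : N * (2 * (k * p.coeff (x a))) < N * bar p c (x a) := by linarith
        exact lt_of_mul_lt_mul_left h2 hNpos.le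
      · intro h1
        have h2 := mul_lt_mul_of_pos_left h1 hNpos
        linarith
    rw [e1, hcount (fun v => 2 * (k * p.coeff v) < bar p c v)]
    have h1 := l1_bar hcne hnc ((A.image x).filter fun v => 2 * (k * p.coeff v) < bar p c v)
    have h2 : ∑ v ∈ (A.image x).filter (fun v => 2 * (k * p.coeff v) < bar p c v), p.coeff v ≤
        ∑ v ∈ (A.image x).filter (fun v => 2 * (k * p.coeff v) < bar p c v),
          |p.coeff v - bar p c v / c.card| := by
      refine sum_le_sum fun v hv => ?_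
      have h3 := (mem_filter.1 hv).2
      have h4 := neg_abs_le (p.coeff v - bar p c v / c.card)
      rw [hckk] at h4 ⊢
      have h5 : 2 * p.coeff v ≤ bar p c v / k := by
        rw [le_div_iff₀ hk0]
        linarith
      linarith
    calc N * ∑ v ∈ (A.image x).filter (fun v => 2 * (k * p.coeff v) < bar p c v), p.coeff v
        ≤ N * t := mul_le_mul_of_nonneg_left (by linarith) hNpos.le
      _ = t * N := by ring
  -- `Z₃`
  have hZ3 : ((A.filter fun a => x a ∈ B ∧ g a < ε / (2 * m) * N).card : ℝ) ≤ ε / 2 * N := by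
    have h1 : (A.filter fun a => x a ∈ B ∧ g a < ε / (2 * m) * N) ⊆
        B.biUnion fun b => A.filter fun a => x a = b ∧ g a < ε / (2 * m) * N := by
      intro a ha
      rw [mem_filter] at ha
      exact mem_biUnion.2 ⟨x a, ha.2.1, mem_filter.2 ⟨ha.1, rfl, ha.2.2⟩⟩
    have h2 : ∀ b ∈ B, ((A.filter fun a => x a = b ∧ g a < ε / (2 * m) * N).card : ℝ) ≤
        ε / (2 * m) * N := by
      intro b _
      rcases (A.filter fun a => x a = b ∧ g a < ε / (2 * m) * N).eq_empty_or_nonempty with h0 |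
        ⟨a, ha⟩
      · rw [h0, card_empty, Nat.cast_zero]
        positivity
      · rw [mem_filter] at ha
        have h3 : (A.filter fun a => x a = b ∧ g a < ε / (2 * m) * N) ⊆ cl A x a := by
          intro s hs
          rw [mem_filter] at hs
          rw [mem_cl]
          exact ⟨hs.1, by rw [hs.2.1, ha.2.1]⟩
        have h4 : ((A.filter fun a => x a = b ∧ g a < ε / (2 * m) * N).card : ℝ) ≤ f a := by
          rw [← hfc]
          exact_mod_cast card_le_card h3
        have := hfg a
        linarith [ha.2.2]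
    calc ((A.filter fun a => x a ∈ B ∧ g a < ε / (2 * m) * N).card : ℝ)
        ≤ ∑ b ∈ B, ((A.filter fun a => x a = b ∧ g a < ε / (2 * m) * N).card : ℝ) := by
          exact_mod_cast (card_le_card h1).trans card_biUnion_le
      _ ≤ ∑ b ∈ B, (ε / (2 * m) * N) := sum_le_sum h2
      _ = B.card * (ε / (2 * m) * N) := by rw [sum_const, nsmul_eq_mul]
      _ ≤ m * (ε / (2 * m) * N) := by
          refine mul_le_mul_of_nonneg_right (by exact_mod_cast hB) (by positivity)
      _ = ε / 2 * N := by field_simp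
  -- the good elements
  obtain ⟨Gd, hGd⟩ : ∃ Gd, Gd = A.filter fun a => ε / (2 * m) * N ≤ g a ∧
    g a ≤ 2 * (k * f a) ∧ k * f a ≤ 5 / 4 * g a := ⟨_, rfl⟩
  have hGdA : Gd ⊆ A := by
    rw [hGd]
    exact filter_subset _ _
  have hGdc : ε / 4 * N ≤ Gd.card := by
    have h1 : (A.filter fun a => x a ∈ B) ⊆ ((Gd ∪ A.filter fun a => 5 / 4 * g a < k * f a) ∪
        A.filter fun a => 2 * (k * f a) < g a) ∪
        A.filter fun a => x a ∈ B ∧ g a < ε / (2 * m) * N := by
      intro a ha
      rw [mem_filter] at ha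
      rw [mem_union, mem_union, mem_union, mem_filter, mem_filter, mem_filter, hGd, mem_filter]
      by_cases c1 : g a < ε / (2 * m) * N
      · exact Or.inr ⟨ha.1, ha.2, c1⟩
      by_cases c2 : 2 * (k * f a) < g a
      · exact Or.inl (Or.inr ⟨ha.1, c2⟩)
      by_cases c3 : 5 / 4 * g a < k * f a
      · exact Or.inl (Or.inl (Or.inr ⟨ha.1, c3⟩))
      push Not at c1 c2 c3
      exact Or.inl (Or.inl (Or.inl ⟨ha.1, c1, c2, c3⟩))
    have h2 : ((A.filter fun a => x a ∈ B).card : ℝ) ≤
        ((Gd.card : ℝ) + (A.filter fun a => 5 / 4 * g a < k * f a).card +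
        (A.filter fun a => 2 * (k * f a) < g a).card) +
        (A.filter fun a => x a ∈ B ∧ g a < ε / (2 * m) * N).card := by
      have h3 := card_le_card h1
      have h4 := card_union_le ((Gd ∪ A.filter fun a => 5 / 4 * g a < k * f a) ∪
        A.filter fun a => 2 * (k * f a) < g a)
        (A.filter fun a => x a ∈ B ∧ g a < ε / (2 * m) * N)
      have h5 := card_union_le (Gd ∪ A.filter fun a => 5 / 4 * g a < k * f a)
        (A.filter fun a => 2 * (k * f a) < g a)
      have h6 := card_union_le Gd (A.filter fun a => 5 / 4 * g a < k * f a)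
      exact_mod_cast (by omega : (A.filter fun a => x a ∈ B).card ≤
        (Gd.card + (A.filter fun a => 5 / 4 * g a < k * f a).card +
        (A.filter fun a => 2 * (k * f a) < g a).card) +
        (A.filter fun a => x a ∈ B ∧ g a < ε / (2 * m) * N).card)
    rw [hNd] at hBm
    have h3 : 24 * t * N ≤ ε * N := mul_le_mul_of_nonneg_right ht hNpos.le
    linarith
  -- the terms
  obtain ⟨κ, hκ⟩ : ∃ κ : ℝ, κ = ε / (4 * m * n) := ⟨_, rfl⟩
  rw [← hκ]
  have hterm0 : ∀ a ∈ A, 0 ≤ Real.log (max (g a) (κ * N)) - Real.log (max (f a) (κ * N)) := by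
    intro a ha
    rw [sub_nonneg]
    exact Real.log_le_log (lt_max_of_lt_left (hfpos a ha)) (max_le_max_right _ (hfg a))
  have hlog54 : Real.log (5 / 4) ≤ 1 / 3 * Real.log k := by
    have h1 : Real.log ((5 / 4 : ℝ) ^ 3) ≤ Real.log k :=
      Real.log_le_log (by norm_num) (by norm_num; linarith)
    rw [Real.log_pow] at h1
    push_cast at h1
    linarith
  have hterm : ∀ a ∈ Gd, 2 / 3 * Real.log k ≤
      Real.log (max (g a) (κ * N)) - Real.log (max (f a) (κ * N)) := by
    intro a ha
    have hfa := hfpos a (hGdA ha)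
    rw [hGd, mem_filter] at ha
    obtain ⟨-, h1, h2, h3⟩ := ha
    have hga : 0 < g a := lt_of_lt_of_le hfa (hfg a)
    have h4 : κ * N ≤ f a := by
      have h5 : ε / (2 * m) * N ≤ 2 * (n * f a) := by
        have h6 : k * f a ≤ n * f a := mul_le_mul_of_nonneg_right hkn hfa.le
        linarith
      have h6 : κ * N = ε / (2 * m) * N / (2 * n) := by
        rw [hκ]
        field_simp
        ring
      rw [h6, div_le_iff₀ (by positivity)]
      linarith
    have h5 : κ * N ≤ g a := h4.trans (hfg a)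
    rw [max_eq_left h4, max_eq_left h5]
    have h6 : Real.log (k * f a) ≤ Real.log (5 / 4 * g a) :=
      Real.log_le_log (by positivity) h3
    rw [Real.log_mul hk0.ne' hfa.ne', Real.log_mul (by norm_num) hga.ne'] at h6
    linarith
  have hsum : pot A x κ - pot A (fun a => (QuotientAddGroup.mk (x a) : V ⧸ K)) κ =
      ∑ a ∈ A, (Real.log (max (g a) (κ * N)) - Real.log (max (f a) (κ * N))) := by
    unfold pot
    rw [← sum_sub_distrib]
    refine sum_congr rfl fun a _ => ?_
    rw [hfc, hgc, hNd]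
    ring
  rw [hsum, hNd, hkd]
  have hlk : 0 ≤ Real.log k := Real.log_nonneg (by linarith)
  calc N * (ε / 6 * Real.log k) = (ε / 4 * N) * (2 / 3 * Real.log k) := by ring
    _ ≤ Gd.card * (2 / 3 * Real.log k) := mul_le_mul_of_nonneg_right hGdc (by positivity)
    _ = ∑ a ∈ Gd, 2 / 3 * Real.log k := by rw [sum_const, nsmul_eq_mul]
    _ ≤ ∑ a ∈ Gd, (Real.log (max (g a) (κ * N)) - Real.log (max (f a) (κ * N))) :=
        sum_le_sum hterm
    _ ≤ _ := sum_le_sum_of_subset_of_nonneg hGdA fun a ha _ => hterm0 a ha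

end Pool.Agent.Run7.h127.PS
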