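import Pool.Agent.Run7.h127.PS.Free

/-!
# Sets of small doubling have large subsets without popular cosets
-/

set_option autoImplicit false
set_option linter.unusedSectionVars false

namespace Pool.Agent.Run7.h127.PS

open Finset H112
open Pool.Agent.Run7.h127.FV (Near law_lw lw lw_apply sum_lw cosetF struct H_lw_mul H_lw cell_atoms)
open Pool.Agent.Y359.PE (h fc cl mem_cl fc_posR fc_pos fc_le fc_congr h_nonneg cell_left cell_right
  cell_main nz h_congr h_const h_le_log submod chain avg_cl cl_prod)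

universe u

section

open scoped Classical

variable {α β γ δ : Type*} {V : Type*} [AddCommGroup V]

/-- two cells whose sum has almost no more entropy -/
lemma struct_two {S : Finset α} {S' : Finset β} (hS : S.Nonempty) (hS' : S'.Nonempty)
    (a : α → V) (b : β → V) {t : ℝ} (ht : 0 < t) (ht1 : t ≤ 1 / 10)
    (hk : h (S ×ˢ S') (fun x => a x.1 + b x.2) - (h S a + h S' b) / 2 ≤ t ^ 2 / 32000) :
    ∃ K : AddSubgroup V, Finite K ∧ (∀ g ∈ K, Near (lw S' b) g t) ∧
      (K = ⊥ → (∃ w, 999 / 1000 * (S.card : ℝ) ≤ (S.filter fun s => a s = w).card) ∧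
        ∃ w, 999 / 1000 * (S'.card : ℝ) ≤ (S'.filter fun s => b s = w).card) := by
  have hp := law_lw hS a
  have hq := law_lw hS' b
  have h1 := cell_left S S' hS' a b
  have h2 := cell_right S S' hS a b
  have hsq : Real.sqrt (t ^ 2 / 16) = t / 4 := by
    rw [show t ^ 2 / 16 = (t / 4) ^ 2 by ring, Real.sqrt_sq (by positivity)]
  obtain ⟨K, hfin, -, hKq, ⟨x₀, T, hT, hmass⟩, ⟨y₀, U, hU, hmass'⟩⟩ := struct hp hq
    (ω := t ^ 2 / 16) (ζ := 1 / 1000) (by positivity) (by norm_num) (by rw [hsq]; linarith)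
    (by rw [H_lw_mul hS hS', H_lw hS']; linarith) (by rw [H_lw_mul hS hS', H_lw hS]; linarith)
  have e1 : 4 * Real.sqrt (t ^ 2 / 16) = t := by rw [hsq]; ring
  rw [e1] at hKq
  refine ⟨K, hfin, fun g hg => (hKq g).1 hg, ?_⟩
  intro hbot
  constructor
  · have hN : (0 : ℝ) < S.card := by exact_mod_cast card_pos.2 hS
    refine ⟨x₀, ?_⟩
    have h3 : ∑ v ∈ T, (lw S a).coeff v ≤ ∑ v ∈ ({x₀} : Finset V), (lw S a).coeff v := by
      refine sum_le_sum_of_subset_of_nonneg (fun v hv => ?_) fun v _ _ => hp.1 v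
      have h4 := hT v hv
      rw [hbot, AddSubgroup.mem_bot, sub_eq_zero] at h4
      exact mem_singleton.2 h4
    rw [sum_singleton, lw_apply] at h3
    have h4 : 999 / 1000 ≤ ((S.filter fun s => a s = x₀).card : ℝ) / S.card := by
      refine le_trans ?_ h3
      refine le_trans ?_ hmass
      norm_num
    rwa [le_div_iff₀ hN] at h4
  · have hN : (0 : ℝ) < S'.card := by exact_mod_cast card_pos.2 hS'
    refine ⟨y₀, ?_⟩
    have h3 : ∑ v ∈ U, (lw S' b).coeff v ≤ ∑ v ∈ ({y₀} : Finset V), (lw S' b).coeff v := by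
      refine sum_le_sum_of_subset_of_nonneg (fun v hv => ?_) fun v _ _ => hq.1 v
      have h4 := hU v hv
      rw [hbot, AddSubgroup.mem_bot, sub_eq_zero] at h4
      exact mem_singleton.2 h4
    rw [sum_singleton, lw_apply] at h3
    have h4 : 999 / 1000 ≤ ((S'.filter fun s => b s = y₀).card : ℝ) / S'.card := by
      refine le_trans ?_ h3
      refine le_trans ?_ hmass'
      norm_num
    rwa [le_div_iff₀ hN] at h4

/-- **The step for two sets.** -/
theorem pair_step {B : Finset β} {A : Finset α} (hB : B.Nonempty) (hA : A.Nonempty) (y : β → V)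
    (x : α → V) (B₀ : Finset V) {m n : ℕ} (hm : 1 ≤ m) (hB₀ : B₀.card ≤ m) {η ε : ℝ} (hη : 0 < η)
    (hε : (m : ℝ) / (n + 1) + η ≤ ε) (hε1 : ε ≤ 1)
    (hBm : ε * A.card ≤ (A.filter fun a => x a ∈ B₀).card)
    (hNR : ∀ K : AddSubgroup V, Finite K → K ≠ ⊥ → Nat.card K ≤ n →
      pot A x (ε / (4 * m * n)) -
        pot A (fun a => (QuotientAddGroup.mk (x a) : V ⧸ K)) (ε / (4 * m * n)) <
        A.card * (ε / 6 * Real.log (Nat.card K))) :
    η ^ 3 / (10 ^ 9 * Real.log (2 * m)) * (h B y + h A x) ≤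
      h (B ×ˢ A) (fun s => y s.1 + x s.2) - (h B y + h A x) / 2 := by
  have hm1 : (1 : ℝ) ≤ m := by exact_mod_cast hm
  have hN : (0 : ℝ) < A.card := by exact_mod_cast card_pos.2 hA
  have hηε : η ≤ ε := by
    have : (0 : ℝ) ≤ (m : ℝ) / (n + 1) := by positivity
    linarith
  have hε0 : 0 < ε := by linarith
  have hη1 : η ≤ 1 := by linarith
  obtain ⟨L, hL⟩ : ∃ L : ℝ, Real.log (2 * m) = L := ⟨_, rfl⟩
  rw [hL]
  have hL69 : 69 / 100 ≤ L := by
    have h1 : Real.log 2 ≤ L := by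
      rw [← hL]
      exact Real.log_le_log (by norm_num) (by linarith)
    have := log_two_gt
    linarith
  obtain ⟨X, hX⟩ : ∃ X, X = h A x := ⟨_, rfl⟩
  obtain ⟨Y, hY⟩ : ∃ Y, Y = h B y := ⟨_, rfl⟩
  obtain ⟨S, hS⟩ : ∃ S, S = h (B ×ˢ A) (fun s => y s.1 + x s.2) := ⟨_, rfl⟩
  have hX0 : 0 ≤ X := hX ▸ h_nonneg _ _
  have hY0 : 0 ≤ Y := hY ▸ h_nonneg _ _
  have hlow1 : Y ≤ S := by
    rw [hS, hY]
    exact cell_left B A hA y x
  have hlow2 : X ≤ S := by
    rw [hS, hX]
    exact cell_right B A hB y x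
  have hη3 : η ^ 3 ≤ 1 := pow_le_one₀ hη.le hη1
  have hη30 : 0 < η ^ 3 := by positivity
  by_cases hcase : (η / 72) ^ 2 / 32000 ≤ S - (Y + X) / 2
  · -- large growth
    have h1 := large B A hB hA y x B₀ hm hB₀
    rw [← hS, ← hX, ← hY, hL] at h1
    have h2 : ε * Y ≤ ((A.filter fun g => x g ∈ B₀).card : ℝ) / A.card * Y := by
      refine mul_le_mul_of_nonneg_right ?_ hY0
      rw [le_div_iff₀ hN]
      exact hBm
    -- `D ≥ (ε / 4) (X + Y) - L`
    have h3 : ε / 4 * (Y + X) - L ≤ S - (Y + X) / 2 := by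
      have h4 : (1 / 2 - ε / 4) * Y ≤ (1 / 2 - ε / 4) * S :=
        mul_le_mul_of_nonneg_left hlow1 (by linarith)
      have h5 : (1 / 2 + ε / 4) * (ε * Y + X - L) ≤ (1 / 2 + ε / 4) * S :=
        mul_le_mul_of_nonneg_left (by linarith) (by linarith)
      have h6 : 0 ≤ ε ^ 2 / 4 * Y := by positivity
      have h7 : (1 / 2 + ε / 4) * L ≤ L := by
        have : (1 / 2 + ε / 4) * L ≤ 1 * L := mul_le_mul_of_nonneg_right (by linarith) (by linarith)
        linarith
      nlinarith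
    obtain ⟨D, hD⟩ : ∃ D, D = S - (Y + X) / 2 := ⟨_, rfl⟩
    rw [← hX, ← hY, ← hS, ← hD]
    rw [← hD] at hcase h3
    have hD0 : 0 < D := lt_of_lt_of_le (by positivity) hcase
    -- `η² (X + Y) ≤ …`
    have h4 : η ^ 2 * L ≤ 165888000 * L * D := by
      have h5 : η ^ 2 ≤ 165888000 * D := by
        have : (η / 72) ^ 2 / 32000 = η ^ 2 / 165888000 := by ring
        rw [this, div_le_iff₀ (by norm_num)] at hcase
        linarith
      have h6 := mul_le_mul_of_nonneg_right h5 (show 0 ≤ L by linarith)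
      linarith
    have h5 : η * (Y + X) ≤ 4 * (D + L) := by
      have h6 : η * (Y + X) ≤ ε * (Y + X) := mul_le_mul_of_nonneg_right hηε (by linarith)
      linarith
    have h6 : η ^ 3 * (Y + X) ≤ 10 ^ 9 * L * D := by
      have h7 : η ^ 2 * (η * (Y + X)) ≤ η ^ 2 * (4 * (D + L)) :=
        mul_le_mul_of_nonneg_left h5 (by positivity)
      have h8 : η ^ 2 * D ≤ 1 * D := by
        refine mul_le_mul_of_nonneg_right ?_ hD0.le
        exact pow_le_one₀ hη.le hη1
      have h9 : D ≤ 2 * L * D := by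
        have : (1 : ℝ) * D ≤ (2 * L) * D := mul_le_mul_of_nonneg_right (by linarith) hD0.le
        linarith
      have h10 : 0 ≤ L * D := by positivity
      have h11 : η ^ 2 * (4 * (D + L)) = 4 * (η ^ 2 * D) + 4 * (η ^ 2 * L) := by ring
      have h12 : η ^ 2 * (η * (Y + X)) = η ^ 3 * (Y + X) := by ring
      rw [h11, h12] at h7
      nlinarith
    rw [div_mul_eq_mul_div, div_le_iff₀ (by positivity)]
    linarith
  · -- small growth
    push Not at hcase
    obtain ⟨K, hKfin, hKn, hKb⟩ := struct_two hB hA y x (t := η / 72) (by positivity)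
      (by linarith) (by rw [← hS, ← hX, ← hY]; exact hcase.le)
    by_cases hK : K = ⊥
    · obtain ⟨⟨w, hw⟩, ⟨w', hw'⟩⟩ := hKb hK
      have h1 := cell_atoms B A hB hA y x w w' hw hw'
      rw [← hX, ← hY, ← hS]
      rw [← hX, ← hY, ← hS] at h1
      have h2 : η ^ 3 / (10 ^ 9 * L) ≤ 1 / 6 := by
        rw [div_le_div_iff₀ (by positivity) (by norm_num)]
        linarith
      have h3 := mul_le_mul_of_nonneg_right h2 (show 0 ≤ Y + X by linarith)
      linarith
    · exfalso
      have hnear : ∀ g ∈ K, Near (lw A x) g (η / 24) := fun g hg =>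
        (hKn g hg).mono (by linarith)
      have hKcard : Nat.card K ≤ n := by
        obtain ⟨c, hc', hcc⟩ := cosetF K (0 : V)
        have hc : ∀ v, v ∈ c ↔ v ∈ K := fun v => by rw [hc', sub_zero]
        have h1 := mass_le (law_lw hA x) ⟨0, (hc 0).2 K.zero_mem⟩
          (fun g hg => hnear g ((hc g).1 hg)) B₀
        rw [sum_lw, hcc] at h1
        have h2 : ε ≤ ((A.filter fun a => x a ∈ B₀).card : ℝ) / A.card := by
          rw [le_div_iff₀ hN]
          exact hBm
        have hKp : (0 : ℝ) < Nat.card K := by exact_mod_cast Nat.card_pos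
        have h3 : (B₀.card : ℝ) / Nat.card K ≤ m / Nat.card K :=
          div_le_div_of_nonneg_right (by exact_mod_cast hB₀) hKp.le
        have h4 : (m : ℝ) / (n + 1) < m / Nat.card K := by linarith
        have h5 : (Nat.card K : ℝ) < n + 1 := by
          rw [div_lt_div_iff₀ (by positivity) hKp] at h4
          exact lt_of_mul_lt_mul_left h4 (by linarith)
        have h6 : Nat.card K < n + 1 := by exact_mod_cast h5
        omega
      have hlt := hNR K hKfin hK hKcard
      have hge := drop_big hA x hK hnear hm hB₀ hε0 hBm hKcard (by linarith)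
      linarith

/-- The entropy vanishes only for constant functions. -/
lemma const_of_h_eq_zero {A : Finset α} {z : α → β} (hz : h A z ≤ 0) {a b : α} (ha : a ∈ A)
    (hb : b ∈ A) : z a = z b := by
  have hN : (0 : ℝ) < A.card := by exact_mod_cast card_pos.2 ⟨a, ha⟩
  have h0 : ∀ x ∈ A, 0 ≤ Real.log A.card - Real.log (fc A z x) := by
    intro x hx
    have h1 : (fc A z x : ℝ) ≤ A.card := by exact_mod_cast fc_le
    have h2 := Real.log_le_log (fc_posR hx) h1
    linarith
  have h1 : ∑ x ∈ A, (Real.log A.card - Real.log (fc A z x)) ≤ 0 := by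
    unfold h at hz
    rw [div_le_iff₀ hN] at hz
    linarith
  have h2 := (sum_eq_zero_iff_of_nonneg h0).1 (le_antisymm h1 (sum_nonneg h0)) b hb
  have h3 : (fc A z b : ℝ) = A.card := by
    have h4 : Real.log (fc A z b) = Real.log A.card := by linarith
    exact Real.log_injOn_pos (Set.mem_Ioi.2 (fc_posR hb)) (Set.mem_Ioi.2 hN) h4
  have h4 : cl A z b = A := eq_of_subset_of_card_le (filter_subset _ _) (by
    have : fc A z b = A.card := by exact_mod_cast h3
    unfold fc at this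
    omega)
  have h5 : a ∈ cl A z b := by rw [h4]; exact ha
  exact (mem_cl.1 h5).2

/-- the mean of the logarithms of the sizes of the classes -/
lemma sum_log_cl {A : Finset α} (hA : A.Nonempty) (z : α → β) :
    ∑ u ∈ A, Real.log (cl A z u).card = A.card * (Real.log A.card - h A z) := by
  have hN : (0 : ℝ) < A.card := by exact_mod_cast card_pos.2 hA
  unfold h
  rw [mul_sub, mul_div_cancel₀ _ hN.ne', sum_sub_distrib, sum_const, nsmul_eq_mul, sub_sub_cancel]
  rfl

/-- the entropies of the sums of the classes -/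
lemma fibring {Γ : Type*} {V : Type*} [AddCommGroup Γ] [AddCommGroup V] {B A : Finset Γ}
    (hB : B.Nonempty) (hA : A.Nonempty) (z : Γ → V)
    (hz : ∀ a ∈ B, ∀ b ∈ A, ∀ c ∈ B, ∀ d ∈ A, a + b = c + d → z a + z b = z c + z d) :
    ∑ u ∈ B, ∑ v ∈ A, h (cl B z u ×ˢ cl A z v) (fun s => s.1 + s.2) ≤
      B.card * A.card * (h (B ×ˢ A) (fun s => s.1 + s.2) -
        h (B ×ˢ A) (fun s => z s.1 + z s.2)) := by
  have hN : (0 : ℝ) < A.card := by exact_mod_cast card_pos.2 hA
  have hM : (0 : ℝ) < B.card := by exact_mod_cast card_pos.2 hB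
  have h1 := submod (B ×ˢ A) (fun s => z s.1 + z s.2) (fun s => (z s.1, z s.2))
    (fun s => s.1 + s.2) (by
      intro s _ t _ hst
      rw [Prod.mk.injEq] at hst
      show z s.1 + z s.2 = z t.1 + z t.2
      rw [hst.1, hst.2])
  rw [chain (B ×ˢ A) (fun s => (z s.1, z s.2)) (fun s => s.1 + s.2), card_product,
    sum_product] at h1
  have e1 : h (B ×ˢ A) (fun x => (z x.1 + z x.2, x.1 + x.2)) =
      h (B ×ˢ A) (fun x => x.1 + x.2) := by
    refine h_congr fun s hs t ht => ?_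
    rw [mem_product] at hs ht
    rw [Prod.mk.injEq]
    refine ⟨fun h5 => h5.2, fun h5 => ⟨?_, h5⟩⟩
    exact hz _ hs.1 _ hs.2 _ ht.1 _ ht.2 h5
  rw [e1, div_le_iff₀ (by push_cast; positivity)] at h1
  push_cast at h1
  have e2 : ∑ u ∈ B, ∑ v ∈ A, h (cl B z u ×ˢ cl A z v) (fun s => s.1 + s.2) =
      ∑ u ∈ B, ∑ v ∈ A, h (cl (B ×ˢ A) (fun s => (z s.1, z s.2)) (u, v))
        (fun s => s.1 + s.2) := by
    refine sum_congr rfl fun u _ => sum_congr rfl fun v _ => ?_
    rw [cl_prod]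
  rw [e2]
  linarith

/-- the functional which is minimised -/
noncomputable def Phi {Γ : Type*} [AddCommGroup Γ] (l : ℝ) (B A : Finset Γ) : ℝ :=
  h (B ×ˢ A) (fun s => s.1 + s.2) - (1 / 2 + l) * (Real.log B.card + Real.log A.card)

/-- the mean of the functional over the pairs of classes -/
lemma sum_Phi {Γ : Type*} {V : Type*} [AddCommGroup Γ] [AddCommGroup V] (l : ℝ)
    {B A : Finset Γ} (hB : B.Nonempty) (hA : A.Nonempty) (z : Γ → V)
    (hz : ∀ a ∈ B, ∀ b ∈ A, ∀ c ∈ B, ∀ d ∈ A, a + b = c + d → z a + z b = z c + z d) :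
    ∑ u ∈ B, ∑ v ∈ A, Phi l (cl B z u) (cl A z v) ≤ B.card * A.card *
      (Phi l B A - h (B ×ˢ A) (fun s => z s.1 + z s.2) + (1 / 2 + l) * (h B z + h A z)) := by
  have h1 := fibring hB hA z hz
  have h2 := sum_log_cl hA z
  have h3 := sum_log_cl hB z
  have h4 : ∑ u ∈ B, ∑ v ∈ A, Phi l (cl B z u) (cl A z v) =
      ∑ u ∈ B, ∑ v ∈ A, h (cl B z u ×ˢ cl A z v) (fun s => s.1 + s.2) -
      (1 / 2 + l) * (A.card * ∑ u ∈ B, Real.log (cl B z u).card +
        B.card * ∑ v ∈ A, Real.log (cl A z v).card) := by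
    have e1 : ∀ u ∈ B, ∑ v ∈ A, Phi l (cl B z u) (cl A z v) =
        ∑ v ∈ A, h (cl B z u ×ˢ cl A z v) (fun s => s.1 + s.2) -
        ((1 / 2 + l) * A.card * Real.log (cl B z u).card +
          (1 / 2 + l) * ∑ v ∈ A, Real.log (cl A z v).card) := by
      intro u _
      unfold Phi
      rw [sum_sub_distrib, ← mul_sum, sum_add_distrib, sum_const, nsmul_eq_mul]
      ring
    rw [sum_congr rfl e1, sum_sub_distrib, sum_add_distrib, ← mul_sum, sum_const, nsmul_eq_mul]
    ring
  rw [h4, h2, h3]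
  unfold Phi
  nlinarith

lemma h_id {Γ : Type*} {B : Finset Γ} (hB : B.Nonempty) : h B (fun x => x) = Real.log B.card := by
  have hN : (0 : ℝ) < B.card := by exact_mod_cast card_pos.2 hB
  unfold h
  have h1 : ∀ x ∈ B, Real.log B.card - Real.log (fc B (fun x => x) x) = Real.log B.card := by
    intro x hx
    have h2 : fc B (fun x => x) x = 1 := by
      unfold fc
      rw [card_eq_one]
      refine ⟨x, ?_⟩
      ext t
      rw [mem_cl, mem_singleton]
      exact ⟨fun h7 => h7.2, fun h7 => ⟨h7 ▸ hx, h7⟩⟩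
    rw [h2, Nat.cast_one, Real.log_one, sub_zero]
  rw [sum_congr rfl h1, sum_const, nsmul_eq_mul, mul_div_cancel_left₀ _ hN.ne']

lemma Phi_ge {Γ : Type*} [AddCommGroup Γ] {l : ℝ} {B A : Finset Γ} (hB : B.Nonempty)
    (hA : A.Nonempty) : -l * (Real.log B.card + Real.log A.card) ≤ Phi l B A := by
  have h1 := cell_left B A hA (fun x => x) (fun x => x)
  have h2 := cell_right B A hB (fun x => x) (fun x => x)
  rw [h_id hB] at h1
  rw [h_id hA] at h2
  unfold Phi
  linarith

/-- **The minimisers of the functional have no popular cosets.** -/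
theorem robust_from {Γ : Type u} [AddCommGroup Γ] {B₁ A₁ : Finset Γ} (hB₁ : B₁.Nonempty)
    (hA₁ : A₁.Nonempty) {m : ℕ} (hm : 1 ≤ m) {η l : ℝ} (hη : 0 < η) (hl : 0 < l)
    (hle : 2 * l ≤ η ^ 3 / (10 ^ 9 * Real.log (2 * m))) :
    ∃ B ⊆ B₁, ∃ A ⊆ A₁, B.Nonempty ∧ A.Nonempty ∧ Phi l B A ≤ Phi l B₁ A₁ ∧
      ∀ (n : ℕ) (G : AddSubgroup Γ), (∃ R : Finset Γ, R.card ≤ m ∧
        ((m : ℝ) / (n + 1) + η) * A.card ≤ (A.filter fun a => ∃ b ∈ R, a - b ∈ G).card) →
        ∀ a ∈ A, ∀ b ∈ A, mult n η • (a - b) ∈ G := by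
  obtain ⟨p, hp, hmin⟩ := ((B₁.powerset ×ˢ A₁.powerset).filter
    (fun p => p.1.Nonempty ∧ p.2.Nonempty)).exists_min_image (fun p => Phi l p.1 p.2)
    ⟨(B₁, A₁), mem_filter.2 ⟨mem_product.2 ⟨mem_powerset_self _, mem_powerset_self _⟩,
      hB₁, hA₁⟩⟩
  obtain ⟨B, A⟩ := p
  rw [mem_filter, mem_product, mem_powerset, mem_powerset] at hp
  obtain ⟨⟨hBB, hAA⟩, hB, hA⟩ := hp
  simp only at hBB hAA hB hA hmin
  refine ⟨B, hBB, A, hAA, hB, hA, ?_, ?_⟩
  · exact hmin (B₁, A₁) (mem_filter.2 ⟨mem_product.2 ⟨mem_powerset_self _,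
      mem_powerset_self _⟩, hB₁, hA₁⟩)
  · rintro n G ⟨R, hR, hRm⟩ a ha b hb
    have hN : (0 : ℝ) < A.card := by exact_mod_cast card_pos.2 hA
    have hM : (0 : ℝ) < B.card := by exact_mod_cast card_pos.2 hB
    obtain ⟨ε, hε⟩ : ∃ ε, (m : ℝ) / (n + 1) + η = ε := ⟨_, rfl⟩
    rw [hε] at hRm
    have hε1 : ε ≤ 1 := by
      have h2 : ((A.filter fun a => ∃ b ∈ R, a - b ∈ G).card : ℝ) ≤ A.card := by
        exact_mod_cast card_filter_le _ _
      have h3 : ε * A.card ≤ 1 * A.card := by linarith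
      exact le_of_mul_le_mul_right h3 hN
    have hηε : η ≤ ε := by
      have : (0 : ℝ) ≤ (m : ℝ) / (n + 1) := by positivity
      linarith
    have hmn : m ≤ n := by
      have h1 : (m : ℝ) / (n + 1) < 1 := by linarith
      rw [div_lt_one (by positivity)] at h1
      have h2 : m < n + 1 := by exact_mod_cast h1
      omega
    obtain ⟨G', hGG', hmul, hNR⟩ := exists_max A hA G hm hmn hη hηε hε1
    obtain ⟨z, hz⟩ : ∃ z : Γ → Γ ⧸ G', ∀ a, z a = QuotientAddGroup.mk a := ⟨_, fun _ => rfl⟩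
    have hz' : (fun a => (QuotientAddGroup.mk a : Γ ⧸ G')) = z := by
      funext a
      rw [hz]
    have hzadd : ∀ a b, z (a + b) = z a + z b := by
      intro a b
      rw [hz, hz, hz, QuotientAddGroup.mk_add]
    obtain ⟨B₀, hB₀, hB₀R⟩ : ∃ B₀ : Finset (Γ ⧸ G'), B₀.card ≤ m ∧ ∀ b ∈ R, z b ∈ B₀ :=
      ⟨R.image z, card_image_le.trans hR, fun b hb => mem_image_of_mem z hb⟩
    have hpop : ε * A.card ≤ (A.filter fun a => z a ∈ B₀).card := by
      refine hRm.trans (Nat.cast_le.2 (card_le_card ?_))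
      intro a ha
      obtain ⟨h4, b, hb, hab⟩ := mem_filter.1 ha
      refine mem_filter.2 ⟨h4, ?_⟩
      have h5 : z a = z b := by
        rw [hz, hz, QuotientAddGroup.eq]
        have h6 : -a + b = -(a - b) := by abel
        rw [h6]
        exact G'.neg_mem (hGG' hab)
      rw [h5]
      exact hB₀R b hb
    have hps := pair_step hB hA z z B₀ hm hB₀ hη (le_of_eq hε) hε1 (by convert hpop)
      (by
        intro K hK1 hK2 hK3
        have h1 := hNR K hK1 hK2 hK3
        have h2 : (fun a => (QuotientAddGroup.mk (QuotientAddGroup.mk a : Γ ⧸ G') :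
            (Γ ⧸ G') ⧸ K)) = fun a => (QuotientAddGroup.mk (z a) : (Γ ⧸ G') ⧸ K) := by
          funext a
          rw [hz]
        rw [hz', h2] at h1
        exact h1)
    have hsum := sum_Phi l hB hA z (fun a _ b _ c _ d _ h => by rw [← hzadd, ← hzadd, h])
    have hlow : B.card * A.card * Phi l B A ≤
        ∑ u ∈ B, ∑ v ∈ A, Phi l (cl B z u) (cl A z v) := by
      have e1 : (B.card : ℝ) * A.card * Phi l B A = ∑ u ∈ B, ∑ v ∈ A, Phi l B A := by
        rw [sum_const, sum_const, nsmul_eq_mul, nsmul_eq_mul, mul_assoc]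
      rw [e1]
      refine sum_le_sum fun u hu => sum_le_sum fun v hv => ?_
      refine hmin (cl B z u, cl A z v) (mem_filter.2 ⟨mem_product.2 ⟨mem_powerset.2 ?_,
        mem_powerset.2 ?_⟩, ⟨u, mem_cl.2 ⟨hu, rfl⟩⟩, ⟨v, mem_cl.2 ⟨hv, rfl⟩⟩⟩)
      · exact fun y hy => hBB (mem_cl.1 hy).1
      · exact fun y hy => hAA (mem_cl.1 hy).1
    have h1 := le_of_mul_le_mul_left (hlow.trans hsum) (by positivity)
    have hX0 := h_nonneg A z
    have hY0 := h_nonneg B z
    have h2 := mul_le_mul_of_nonneg_right hle (show 0 ≤ h B z + h A z by linarith)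
    have h3 : l * (h B z + h A z) ≤ 0 := by linarith
    have h4 : h B z + h A z ≤ 0 := by
      by_contra hcon
      push Not at hcon
      have := mul_pos hl hcon
      linarith
    have h5 := const_of_h_eq_zero (z := z) (by linarith : h A z ≤ 0) ha hb
    refine hmul _ ?_
    rw [hz, hz, QuotientAddGroup.eq] at h5
    have : a - b = -(-a + b) := by abel
    rw [this]
    exact G'.neg_mem h5

end

open scoped Pointwise

open Classical in
/-- **Popular values and popular cosets.** For a set `A` of small doubling and a family of Freiman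
homomorphisms on `A` with popular values there is a large subset `A'` on which a bounded multiple of
each of them is constant and which has no popular cosets. -/
theorem main {Γ : Type u} [AddCommGroup Γ] {ι : Type*} {V : ι → Type*}
    [∀ i, AddCommGroup (V i)] {A : Finset Γ} (hA : A.Nonempty) {K : ℝ}
    (hK : ((A + A).card : ℝ) ≤ K * A.card) {m n : ℕ} (hm : 1 ≤ m) {η : ℝ} (hη : 0 < η)
    (f : ∀ i, Γ → V i)
    (hf : ∀ i, ∀ a ∈ A, ∀ b ∈ A, ∀ c ∈ A, ∀ d ∈ A, a + b = c + d → f i a + f i b = f i c + f i d)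
    (hF : ∀ i, ∃ B : Finset (V i), B.card ≤ m ∧
      ((m : ℝ) / (n + 1) + η) * A.card ≤ (A.filter fun a => f i a ∈ B).card) :
    ∃ A' ⊆ A, A'.Nonempty ∧
      (A.card : ℝ) ≤ K ^ (4 * 10 ^ 10 / η ^ 4 * Real.log (2 * m)) * A'.card ∧
      (∀ i, ∀ a ∈ A', ∀ b ∈ A', mult n η • f i a = mult n η • f i b) ∧
      ∀ (n' : ℕ) (G : AddSubgroup Γ), (∃ R : Finset Γ, R.card ≤ m ∧
        ((m : ℝ) / (n' + 1) + η) * A'.card ≤ (A'.filter fun a => ∃ b ∈ R, a - b ∈ G).card) →
        ∀ a ∈ A', ∀ b ∈ A', mult n' η • (a - b) ∈ G := by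
  have hN : (0 : ℝ) < A.card := by exact_mod_cast card_pos.2 hA
  have hAA : (A.card : ℝ) ≤ (A + A).card := by
    exact_mod_cast card_le_card_add_right hA
  have hK1 : 1 ≤ K := by nlinarith
  have hm1 : (1 : ℝ) ≤ m := by exact_mod_cast hm
  obtain ⟨L, hL⟩ : ∃ L : ℝ, Real.log (2 * m) = L := ⟨_, rfl⟩
  have hL69 : 69 / 100 ≤ L := by
    have h1 : Real.log 2 ≤ L := by
      rw [← hL]
      exact Real.log_le_log (by norm_num) (by linarith)
    have := log_two_gt
    linarith
  -- the case of a large `η`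
  by_cases hη1 : 1 < η
  · have hno : ∀ (S T : ℝ) (k : ℕ), 0 < S → T ≤ S → ((m : ℝ) / (k + 1) + η) * S ≤ T → False := by
      intro S T k h1 h2 h3
      have h4 : (0 : ℝ) ≤ (m : ℝ) / (k + 1) := by positivity
      have h5 : 1 * S < ((m : ℝ) / (k + 1) + η) * S :=
        mul_lt_mul_of_pos_right (by linarith) h1
      linarith
    refine ⟨A, Subset.refl _, hA, ?_, ?_, ?_⟩
    · refine le_mul_of_one_le_left hN.le (Real.one_le_rpow hK1 ?_)
      rw [hL]
      positivity
    · intro i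
      obtain ⟨B, -, h1⟩ := hF i
      exact (hno _ _ n hN (by exact_mod_cast card_filter_le _ _) h1).elim
    · rintro n' G ⟨R, -, h1⟩
      exact (hno _ _ n' hN (by exact_mod_cast card_filter_le _ _) h1).elim
  push Not at hη1
  obtain ⟨l, hl⟩ : ∃ l : ℝ, l = η ^ 4 / (4 * 10 ^ 10 * L) := ⟨_, rfl⟩
  have hl0 : 0 < l := by
    rw [hl]
    positivity
  have hle : 2 * l ≤ η ^ 3 / (10 ^ 9 * Real.log (2 * m)) := by
    rw [hl, hL]
    have h1 : 2 * (η ^ 4 / (4 * 10 ^ 10 * L)) = η ^ 4 / (2 * 10 ^ 10 * L) := by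
      field_simp
      ring
    rw [h1]
    refine div_le_div₀ (by positivity) (pow_le_pow_of_le_one hη.le hη1 (by norm_num))
      (by positivity) ?_
    exact mul_le_mul_of_nonneg_right (by norm_num) (by linarith)
  -- the first step: a pair of fibres
  obtain ⟨B₁, A₁, hB₁, hA₁, hBA, hAA₁, hPhi, hconst⟩ : ∃ B₁ A₁ : Finset Γ, B₁.Nonempty ∧
      A₁.Nonempty ∧ B₁ ⊆ A ∧ A₁ ⊆ A ∧ Phi l B₁ A₁ ≤ Phi l A A ∧
      ∀ i, ∀ a ∈ A₁, ∀ b ∈ A₁, mult n η • f i a = mult n η • f i b := by
    rcases isEmpty_or_nonempty ι with hι | hι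
    · exact ⟨A, A, hA, hA, Subset.refl _, Subset.refl _, le_rfl, fun i => hι.elim i⟩
    obtain ⟨W, _, z, hz, hX, hconst⟩ := coords hA hm hη f hf hF
    rw [hL] at hX
    have hsum := sum_Phi l hA hA z hz
    obtain ⟨S, hS⟩ : ∃ S, S = h (A ×ˢ A) (fun s => z s.1 + z s.2) := ⟨_, rfl⟩
    rw [← hS] at hX hsum
    have h1 : 2 * l * h A z ≤ S - h A z := by
      have h2 : l * h A z ≤ l * (2 * 10 ^ 10 / η ^ 4 * L * (S - h A z)) :=
        mul_le_mul_of_nonneg_left hX hl0.le
      have h3 : l * (2 * 10 ^ 10 / η ^ 4 * L * (S - h A z)) = (S - h A z) / 2 := by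
        rw [hl]
        field_simp
        ring
      linarith
    obtain ⟨u, hu, v, hv, huv⟩ : ∃ u ∈ A, ∃ v ∈ A, Phi l (cl A z u) (cl A z v) ≤ Phi l A A := by
      by_contra hcon
      push Not at hcon
      have h2 : ∑ u ∈ A, ∑ v ∈ A, Phi l A A < ∑ u ∈ A, ∑ v ∈ A, Phi l (cl A z u) (cl A z v) :=
        sum_lt_sum_of_nonempty hA fun u hu => sum_lt_sum_of_nonempty hA fun v hv => hcon u hu v hv
      rw [sum_const, sum_const, nsmul_eq_mul, nsmul_eq_mul, ← mul_assoc] at h2
      have h3 := lt_of_mul_lt_mul_left (h2.trans_le hsum) (by positivity)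
      linarith
    refine ⟨cl A z u, cl A z v, ⟨u, mem_cl.2 ⟨hu, rfl⟩⟩, ⟨v, mem_cl.2 ⟨hv, rfl⟩⟩,
      fun y hy => (mem_cl.1 hy).1, fun y hy => (mem_cl.1 hy).1, huv, ?_⟩
    intro i a ha b hb
    rw [mem_cl] at ha hb
    exact hconst a ha.1 b hb.1 (ha.2.trans hb.2.symm) i
  obtain ⟨B, hBB, A', hA'A, hB, hA', hPhi', hrob⟩ := robust_from hB₁ hA₁ hm hη hl0 hle
  refine ⟨A', hA'A.trans hAA₁, hA', ?_, ?_, hrob⟩
  · have h1 := Phi_ge (l := l) hB hA'
    have h2 : Phi l A A ≤ Real.log K - 2 * l * Real.log A.card := by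
      have h3 : h (A ×ˢ A) (fun s : Γ × Γ => s.1 + s.2) ≤ Real.log (A + A).card :=
        h_le_log (hA.product hA) _
      have h4 : Real.log (A + A).card ≤ Real.log K + Real.log A.card := by
        rw [← Real.log_mul (by linarith) hN.ne']
        exact Real.log_le_log (by linarith) hK
      unfold Phi
      linarith
    have h3 : Real.log B.card ≤ Real.log A.card :=
      Real.log_le_log (by exact_mod_cast card_pos.2 hB)
        (by exact_mod_cast card_le_card (hBB.trans hBA))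
    have hA'0 : (0 : ℝ) < A'.card := by exact_mod_cast card_pos.2 hA'
    have h4 : l * (Real.log A.card - Real.log A'.card) ≤ Real.log K := by
      have h5 := mul_le_mul_of_nonneg_left h3 hl0.le
      linarith
    have h5 : Real.log A.card - Real.log A'.card ≤
        4 * 10 ^ 10 / η ^ 4 * L * Real.log K := by
      have h6 : 4 * 10 ^ 10 / η ^ 4 * L = 1 / l := by
        rw [hl]
        field_simp
      rw [h6, div_mul_eq_mul_div, one_mul, le_div_iff₀ hl0]
      linarith
    have h7 : Real.log A.card ≤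
        Real.log (K ^ (4 * 10 ^ 10 / η ^ 4 * Real.log (2 * m)) * A'.card) := by
      rw [Real.log_mul (Real.rpow_pos_of_pos (by linarith) _).ne' hA'0.ne',
        Real.log_rpow (by linarith), hL]
      linarith
    exact (Real.log_le_log_iff hN (mul_pos (Real.rpow_pos_of_pos (by linarith) _) hA'0)).1 h7
  · intro i a ha b hb
    exact hconst i a (hA'A ha) b (hA'A hb)

end Pool.Agent.Run7.h127.PS
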