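import Pool.Agent.Run7.h127.PS.Pot
import Pool.Agent.Run7.h127.FV.Step

/-!
# The step: adding a coordinate some values of which are popular
-/

set_option autoImplicit false
set_option linter.unusedSectionVars false

namespace Pool.Agent.Run7.h127.PS

open Finset H112
open Pool.Agent.Run7.h127.FV
open Pool.Agent.Y359.PE (h fc cl mem_cl fc_posR fc_pos fc_le fc_congr h_nonneg cell_left cell_right
  cell_main nz h_congr h_const h_le_log submod chain avg_cl cl_prod)
open scoped Classical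

variable {α β γ δ : Type*} {V M : Type*} [AddCommGroup V] [AddCommGroup M]

/-- The entropy of a sum, one of whose summands is in a small set with positive probability. -/
lemma large (G : Finset α) (G' : Finset β) (hG : G.Nonempty) (hG' : G'.Nonempty) (a : α → V)
    (b : β → V) (B : Finset V) {m : ℕ} (hm : 1 ≤ m) (hB : B.card ≤ m) :
    ((G'.filter fun g => b g ∈ B).card : ℝ) / G'.card * h G a + h G' b - Real.log (2 * m) ≤
      h (G ×ˢ G') (fun x => a x.1 + b x.2) := by
  have hN : (0 : ℝ) < G.card := by exact_mod_cast card_pos.2 hG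
  have hN' : (0 : ℝ) < G'.card := by exact_mod_cast card_pos.2 hG'
  have hm0 : (0 : ℝ) < m := by exact_mod_cast hm
  set J : β → ℕ := fun g => if b g ∈ B then 1 else 0 with hJ
  -- the two parts
  have hcl : ∀ g ∈ G', cl G' J g = if b g ∈ B then G'.filter (fun g => b g ∈ B)
      else G'.filter (fun g => b g ∉ B) := by
    intro g _
    ext u
    rw [mem_cl]
    by_cases h1 : b g ∈ B
    · rw [if_pos h1, mem_filter]
      by_cases h2 : b u ∈ B <;> simp [hJ, h1, h2]
    · rw [if_neg h1, mem_filter]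
      by_cases h2 : b u ∈ B <;> simp [hJ, h1, h2]
  set X := h (G'.filter (fun g => b g ∉ B)) b with hX
  have hX0 : 0 ≤ X := h_nonneg _ _
  set β' : ℝ := ((G'.filter fun g => b g ∉ B).card : ℝ) with hβ'
  have hβ0 : 0 ≤ β' := Nat.cast_nonneg _
  have hcount : ((G'.filter fun g => b g ∈ B).card : ℝ) = G'.card - β' := by
    have h1 := card_filter_add_card_filter_not (s := G') (fun g => b g ∈ B)
    have h2 : ((G'.filter fun g => b g ∈ B).card : ℝ) + β' = G'.card := by
      rw [hβ']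
      exact_mod_cast h1
    linarith
  have ha0 := h_nonneg G a
  -- lower bound for the sum
  have low : ((G'.card - β') * h G a + β' * X) / G'.card ≤
      h (G ×ˢ G') (fun x => a x.1 + b x.2) := by
    refine le_trans ?_ (cond_le (G ×ˢ G') (fun s => J s.2) (fun x => a x.1 + b x.2))
    rw [chain, card_product, sum_product]
    push_cast
    have h1 : ∀ g ∈ G, ∀ g' ∈ G', (if b g' ∈ B then h G a else X) ≤
        h (cl (G ×ˢ G') (fun s => J s.2) (g, g')) (fun x => a x.1 + b x.2) := by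
      intro g hg g' hg'
      have e1 : cl (G ×ˢ G') (fun s => J s.2) (g, g') = G ×ˢ cl G' J g' := by
        ext u
        rw [mem_cl, mem_product, mem_product, mem_cl]
        tauto
      have hne : (cl G' J g').Nonempty := ⟨g', mem_cl.2 ⟨hg', rfl⟩⟩
      rw [e1]
      split_ifs with h2
      · exact cell_left G _ hne a b
      · have := cell_right G (cl G' J g') hG a b
        rw [hcl g' hg', if_neg h2] at this ⊢
        exact this
    have h2 : ∑ g ∈ G, ∑ g' ∈ G', (if b g' ∈ B then h G a else X) ≤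
        ∑ g ∈ G, ∑ g' ∈ G', h (cl (G ×ˢ G') (fun s => J s.2) (g, g'))
          (fun x => a x.1 + b x.2) :=
      sum_le_sum fun g hg => sum_le_sum fun g' hg' => h1 g hg g' hg'
    have h3 : ∑ g' ∈ G', (if b g' ∈ B then h G a else X) = (G'.card - β') * h G a + β' * X := by
      rw [sum_ite, sum_const, sum_const, nsmul_eq_mul, nsmul_eq_mul, hcount]
    rw [h3, sum_const, nsmul_eq_mul] at h2
    rw [div_le_div_iff₀ hN' (by positivity)]
    have h4 := mul_le_mul_of_nonneg_right h2 hN'.le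
    nlinarith
  -- upper bound for the entropy of `b`
  have up : h G' b ≤ Real.log 2 + ((G'.card - β') * Real.log m + β' * X) / G'.card := by
    have h1 := h_le_pair G' J b
    have h2 := chain G' J b
    have h3 : h G' J ≤ Real.log 2 := by
      refine (h_le_log hG' J).trans (Real.log_le_log ?_ ?_)
      · exact Nat.cast_pos.2 (card_pos.2 (@Nonempty.image β ℕ (fun a b => Classical.propDecidable (a = b)) G' hG' J))
      · exact Nat.cast_le_ofNat.2 (card_image_two _ G' J fun g => by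
          by_cases h2 : b g ∈ B <;> simp [hJ, h2])
    have h4 : ∑ g ∈ G', h (cl G' J g) b ≤ (G'.card - β') * Real.log m + β' * X := by
      have h5 : ∀ g ∈ G', h (cl G' J g) b ≤ if b g ∈ B then Real.log m else X := by
        intro g hg
        have hne : (cl G' J g).Nonempty := ⟨g, mem_cl.2 ⟨hg, rfl⟩⟩
        rw [hcl g hg] at hne ⊢
        split_ifs with h6
        · rw [if_pos h6] at hne
          refine (h_le_log hne b).trans ?_
          have h7 : ((G'.filter fun g => b g ∈ B).image b).card ≤ m := by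
            refine (card_le_card ?_).trans hB
            intro v hv
            obtain ⟨u, hu, rfl⟩ := mem_image.1 hv
            rw [mem_filter] at hu
            exact hu.2
          have h8 : 0 < ((G'.filter fun g => b g ∈ B).image b).card := card_pos.2 (hne.image b)
          exact Real.log_le_log (by exact_mod_cast h8) (by exact_mod_cast h7)
        · exact le_rfl
      refine (sum_le_sum h5).trans (le_of_eq ?_)
      rw [sum_ite, sum_const, sum_const, nsmul_eq_mul, nsmul_eq_mul, hcount]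
    have h5 : (∑ g ∈ G', h (cl G' J g) b) / G'.card ≤
        ((G'.card - β') * Real.log m + β' * X) / G'.card :=
      div_le_div_of_nonneg_right h4 hN'.le
    linarith
  have hlm : 0 ≤ Real.log m := Real.log_natCast_nonneg _
  have hlog : Real.log (2 * m) = Real.log 2 + Real.log m :=
    Real.log_mul (by norm_num) hm0.ne'
  rw [hlog, hcount]
  have e0 : (G'.card - β') / G'.card = 1 - β' / G'.card := by
    field_simp
  have e1 : ((G'.card - β') * h G a + β' * X) / G'.card =
      h G a - β' / G'.card * h G a + β' * X / G'.card := by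
    field_simp
  have e2 : ((G'.card - β') * Real.log m + β' * X) / G'.card =
      Real.log m - β' / G'.card * Real.log m + β' * X / G'.card := by
    field_simp
  rw [e1] at low
  rw [e2] at up
  rw [e0, sub_mul, one_mul]
  have h7 : 0 ≤ β' / G'.card := by positivity
  have h8 : 0 ≤ β' / G'.card * Real.log m := by positivity
  linarith

/-- two cells whose sum has almost no more entropy -/
lemma struct_cell {S : Finset α} {S' : Finset β} (hS : S.Nonempty) (hS' : S'.Nonempty)
    (a : α → V) (b : β → V) {t : ℝ} (ht : 0 < t) (ht1 : t ≤ 1 / 10)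
    (hk : h (S ×ˢ S') (fun x => a x.1 + b x.2) - h S a / 2 - h S' b / 2 ≤ t ^ 2 / 32000) :
    ∃ K : AddSubgroup V, Finite K ∧ (∀ g, g ∈ K ↔ Near (lw S a) g t) ∧
      (∀ g ∈ K, Near (lw S' b) g t) ∧
      (K = ⊥ → ∃ w, 999 / 1000 * (S'.card : ℝ) ≤ (S'.filter fun s => b s = w).card) := by
  have hp := law_lw hS a
  have hq := law_lw hS' b
  have h1 := cell_left S S' hS' a b
  have h2 := cell_right S S' hS a b
  have hsq : Real.sqrt (t ^ 2 / 16) = t / 4 := by
    rw [show t ^ 2 / 16 = (t / 4) ^ 2 by ring, Real.sqrt_sq (by positivity)]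
  obtain ⟨K, hfin, hKp, hKq, -, x₀, T, hT, hmass⟩ := struct hp hq (ω := t ^ 2 / 16)
    (ζ := 1 / 1000) (by positivity) (by norm_num) (by rw [hsq]; linarith)
    (by rw [H_lw_mul hS hS', H_lw hS']; linarith) (by rw [H_lw_mul hS hS', H_lw hS]; linarith)
  have e1 : 4 * Real.sqrt (t ^ 2 / 16) = t := by rw [hsq]; ring
  rw [e1] at hKp hKq
  refine ⟨K, hfin, hKp, fun g hg => (hKq g).1 hg, ?_⟩
  intro hbot
  have hN : (0 : ℝ) < S'.card := by exact_mod_cast card_pos.2 hS'
  refine ⟨x₀, ?_⟩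
  have h3 : ∑ v ∈ T, (lw S' b).coeff v ≤ ∑ v ∈ ({x₀} : Finset V), (lw S' b).coeff v := by
    refine sum_le_sum_of_subset_of_nonneg (fun v hv => ?_) fun v _ _ => hq.1 v
    have h4 := hT v hv
    rw [hbot, AddSubgroup.mem_bot, sub_eq_zero] at h4
    exact mem_singleton.2 h4
  rw [sum_singleton, lw_apply] at h3
  have h4 : 999 / 1000 ≤ ((S'.filter fun s => b s = x₀).card : ℝ) / S'.card := by
    refine le_trans ?_ h3
    refine le_trans ?_ hmass
    norm_num
  rwa [le_div_iff₀ hN] at h4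

lemma near_two {p : AddMonoidAlgebra ℝ V} (hp : Law p) (g : V) : Near p g 2 := by
  intro s
  calc ∑ y ∈ s, |p.coeff (y - g) - p.coeff y| ≤ ∑ y ∈ s, (p.coeff (y - g) + p.coeff y) := by
        refine sum_le_sum fun y _ => ?_
        have h1 := hp.1 (y - g)
        have h2 := hp.1 y
        rw [abs_sub_le_iff]
        constructor <;> linarith
    _ ≤ 2 := by
        rw [sum_add_distrib]
        have h1 := law_sum_le_one hp s
        have h2 := law_sum_le_one hp (s.image fun y => y - g)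
        rw [sum_image (fun a _ b _ hab => sub_left_injective hab)] at h2
        linarith

/-- The law is the mean of the laws on the classes. -/
lemma lw_avg (A : Finset α) (F : α → γ) (x : α → V) (v : V) :
    (lw A x).coeff v = (∑ u ∈ A, (lw (cl A F u) x).coeff v) / A.card := by
  have h1 := avg_cl A F (fun a => if x a = v then (1 : ℝ) else 0)
  have h2 : ∀ T : Finset α, ∑ y ∈ T, (if x y = v then (1 : ℝ) else 0) =
      (T.filter fun a => x a = v).card := by
    intro T
    rw [← sum_filter, sum_const, nsmul_eq_mul, mul_one]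
  rw [lw_apply, ← h2 A, ← h1]
  congr 1
  refine sum_congr rfl fun u _ => ?_
  rw [lw_apply, h2]
  rfl

/-- If almost all classes have an almost invariant law, then so has the whole set. -/
lemma near_avg {A : Finset α} (hA : A.Nonempty) (F : α → γ) (x : α → V) {Gd : Finset α}
    (hGd : Gd ⊆ A) {g : V} {t b : ℝ} (ht : 0 ≤ t)
    (h : ∀ u ∈ Gd, Near (lw (cl A F u) x) g t) (hb : (1 - b) * A.card ≤ Gd.card) :
    Near (lw A x) g (t + 2 * b) := by
  intro s
  have hN : (0 : ℝ) < A.card := by exact_mod_cast card_pos.2 hA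
  have hcne : ∀ u ∈ A, (cl A F u).Nonempty := fun u hu => ⟨u, mem_cl.2 ⟨hu, rfl⟩⟩
  have h1 : ∀ y ∈ s, |(lw A x).coeff (y - g) - (lw A x).coeff y| ≤
      (∑ u ∈ A, |(lw (cl A F u) x).coeff (y - g) - (lw (cl A F u) x).coeff y|) / A.card := by
    intro y _
    rw [lw_avg A F x (y - g), lw_avg A F x y, ← sub_div, ← sum_sub_distrib, abs_div,
      abs_of_pos hN]
    exact div_le_div_of_nonneg_right (abs_sum_le_sum_abs _ _) hN.le
  refine (sum_le_sum h1).trans ?_
  rw [← sum_div, sum_comm, div_le_iff₀ hN, ← sum_sdiff hGd]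
  have h2 : ∑ u ∈ Gd, ∑ y ∈ s, |(lw (cl A F u) x).coeff (y - g) -
      (lw (cl A F u) x).coeff y| ≤ Gd.card * t := by
    rw [← nsmul_eq_mul, ← sum_const]
    exact sum_le_sum fun u hu => h u hu s
  have h3 : ∑ u ∈ A \ Gd, ∑ y ∈ s, |(lw (cl A F u) x).coeff (y - g) -
      (lw (cl A F u) x).coeff y| ≤ (A \ Gd).card * 2 := by
    rw [← nsmul_eq_mul, ← sum_const]
    exact sum_le_sum fun u hu => near_two (law_lw (hcne u (mem_sdiff.1 hu).1) x) g s
  have h4 : ((A \ Gd).card : ℝ) + Gd.card = A.card := by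
    exact_mod_cast card_sdiff_add_card_eq_card hGd
  have h5 : (Gd.card : ℝ) * t ≤ A.card * t :=
    mul_le_mul_of_nonneg_right (by exact_mod_cast card_le_card hGd) ht
  linarith

/-- the number of the elements in a small set, as a mean over the classes -/
lemma sum_pop (A : Finset α) (F : α → γ) (x : α → V) (B : Finset V) :
    ∑ u ∈ A, (((cl A F u).filter fun a => x a ∈ B).card : ℝ) / (cl A F u).card =
      (A.filter fun a => x a ∈ B).card := by
  have h1 := avg_cl A F (fun a => if x a ∈ B then (1 : ℝ) else 0)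
  have h2 : ∀ T : Finset α, ∑ y ∈ T, (if x y ∈ B then (1 : ℝ) else 0) =
      (T.filter fun a => x a ∈ B).card := by
    intro T
    rw [← sum_filter, sum_const, nsmul_eq_mul, mul_one]
  simp only [h2] at h1
  exact h1

section reals

variable {A Gd : Finset α} {η : α → ℝ} {Hs : α → α → ℝ} {L D₀ N S : ℝ}

/-- the case of a large growth -/
lemma case_large (hN : 0 < N) (hNd : (A.card : ℝ) = N) (hS : ∑ u ∈ A, η u = S) (hS0 : 0 ≤ S)
    {g : α → ℝ} {e τ : ℝ} (he : 0 < e) (hL : 69 / 100 ≤ L)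
    (hbig : ∀ u ∈ A, ∀ v ∈ A, g v * η u + η v - L ≤ Hs u v)
    (hg : e * N ≤ ∑ v ∈ A, g v)
    (hWD : ∑ u ∈ A, ∑ v ∈ A, Hs u v = N ^ 2 * D₀ + N * S)
    (hτ : 0 < τ) (hτ1 : τ ≤ 1 / 200) (hD : τ ≤ D₀) : S / N ≤ 101 / 100 * L / (e * τ) * D₀ := by
  have h2 : ∑ u ∈ A, ∑ v ∈ A, (g v * η u + η v - L) ≤ N ^ 2 * D₀ + N * S := by
    rw [← hWD]
    exact sum_le_sum fun u hu => sum_le_sum fun v hv => hbig u hu v hv
  have h3 : ∑ u ∈ A, ∑ v ∈ A, (g v * η u + η v - L) =
      (∑ v ∈ A, g v) * S + N * S - N ^ 2 * L := by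
    have e1 : ∀ u ∈ A, ∑ v ∈ A, (g v * η u + η v - L) =
        (∑ v ∈ A, g v) * η u + (S - N * L) := by
      intro u _
      rw [sum_sub_distrib, sum_add_distrib, ← sum_mul, hS, sum_const, nsmul_eq_mul, hNd]
      ring
    rw [sum_congr rfl e1, sum_add_distrib, ← mul_sum, hS, sum_const, nsmul_eq_mul, hNd]
    ring
  rw [h3] at h2
  have h4 : e * N * S ≤ (∑ v ∈ A, g v) * S := mul_le_mul_of_nonneg_right hg hS0
  have h5 : e * N * S ≤ N ^ 2 * (D₀ + L) := by linarith
  have h6 : e * (S / N) ≤ D₀ + L := by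
    have h7 : (e * (S / N)) * N ^ 2 = e * N * S := by
      field_simp
    have h8 : (e * (S / N)) * N ^ 2 ≤ (D₀ + L) * N ^ 2 := by
      rw [h7]
      linarith
    exact le_of_mul_le_mul_right h8 (by positivity)
  have hD0 : 0 < D₀ := by linarith
  have h7 : D₀ + L ≤ 101 / 100 * L / τ * D₀ := by
    have h8 : L ≤ L / τ * D₀ := by
      rw [div_mul_eq_mul_div, le_div_iff₀ hτ]
      exact mul_le_mul_of_nonneg_left hD (by linarith)
    have h9 : D₀ ≤ 1 / 100 * L / τ * D₀ := by
      have h10 : 1 ≤ 1 / 100 * L / τ := by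
        rw [le_div_iff₀ hτ]
        linarith
      calc D₀ = 1 * D₀ := (one_mul _).symm
        _ ≤ 1 / 100 * L / τ * D₀ := mul_le_mul_of_nonneg_right h10 hD0.le
    have h10 : 101 / 100 * L / τ * D₀ = L / τ * D₀ + 1 / 100 * L / τ * D₀ := by ring
    linarith
  have h8 : 101 / 100 * L / (e * τ) * D₀ = (101 / 100 * L / τ * D₀) / e := by
    field_simp
  rw [h8, le_div_iff₀ he]
  linarith

/-- in the case of a small growth there is a good class -/
lemma good_class (hA : A.Nonempty) (hN : 0 < N) (hNd : (A.card : ℝ) = N)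
    (hS : ∑ u ∈ A, η u = S)
    (hHl : ∀ u ∈ A, ∀ v ∈ A, η u ≤ Hs u v) (hHr : ∀ u ∈ A, ∀ v ∈ A, η v ≤ Hs u v)
    (hWD : ∑ u ∈ A, ∑ v ∈ A, Hs u v = N ^ 2 * D₀ + N * S) {b σ : ℝ} (hσ : 0 < σ)
    (hD : D₀ < b * σ) :
    ∃ u₀ ∈ A, (1 - b) * N ≤ (A.filter fun v => Hs u₀ v - η u₀ / 2 - η v / 2 ≤ σ).card := by
  have hk0 : ∀ u ∈ A, ∀ v ∈ A, 0 ≤ Hs u v - η u / 2 - η v / 2 := by
    intro u hu v hv
    have h1 := hHl u hu v hv
    have h2 := hHr u hu v hv
    linarith
  have hksum : ∑ u ∈ A, ∑ v ∈ A, (Hs u v - η u / 2 - η v / 2) = N ^ 2 * D₀ := by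
    have h1 : ∀ u ∈ A, ∑ v ∈ A, (Hs u v - η u / 2 - η v / 2) =
        ∑ v ∈ A, Hs u v - (N / 2 * η u + S / 2) := by
      intro u _
      rw [sum_sub_distrib, sum_sub_distrib, sum_const, nsmul_eq_mul, ← sum_div, hS, hNd]
      ring
    rw [sum_congr rfl h1, sum_sub_distrib, sum_add_distrib, sum_const, nsmul_eq_mul, ← mul_sum,
      hS, hNd, hWD]
    ring
  obtain ⟨u₀, hu₀, hu₀s⟩ : ∃ u ∈ A, ∑ v ∈ A, (Hs u v - η u / 2 - η v / 2) ≤ N * D₀ := by
    refine exists_le_of_sum_le hA ?_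
    rw [hksum, sum_const, nsmul_eq_mul, hNd]
    exact le_of_eq (by ring)
  refine ⟨u₀, hu₀, ?_⟩
  have hbad : ((A.filter fun v => ¬ Hs u₀ v - η u₀ / 2 - η v / 2 ≤ σ).card : ℝ) ≤ b * N := by
    have h1 : ((A.filter fun v => ¬ Hs u₀ v - η u₀ / 2 - η v / 2 ≤ σ).card : ℝ) * σ ≤
        ∑ v ∈ A, (Hs u₀ v - η u₀ / 2 - η v / 2) := by
      rw [← nsmul_eq_mul, ← sum_const]
      refine (sum_le_sum fun u hu => ?_).trans (sum_le_sum_of_subset_of_nonneg
        (filter_subset (fun v => ¬ Hs u₀ v - η u₀ / 2 - η v / 2 ≤ σ) A)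
        fun v hv _ => hk0 u₀ hu₀ v hv)
      rw [mem_filter, not_le] at hu
      exact hu.2.le
    have h2 : N * D₀ ≤ N * (b * σ) := mul_le_mul_of_nonneg_left hD.le hN.le
    have h3 : ((A.filter fun v => ¬ Hs u₀ v - η u₀ / 2 - η v / 2 ≤ σ).card : ℝ) * σ ≤
        b * N * σ := by linarith
    exact le_of_mul_le_mul_right h3 hσ
  have h1 := card_filter_add_card_filter_not (s := A)
    (fun v => Hs u₀ v - η u₀ / 2 - η v / 2 ≤ σ)
  have h2 : ((A.filter fun v => Hs u₀ v - η u₀ / 2 - η v / 2 ≤ σ).card : ℝ) +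
      (A.filter fun v => ¬ Hs u₀ v - η u₀ / 2 - η v / 2 ≤ σ).card = N := by
    rw [← hNd]
    exact_mod_cast h1
  linarith

end reals

/-- **The step.** -/
theorem step (A : Finset α) (hA : A.Nonempty) (F : α → M) (x : α → V)
    (B : Finset V) {m n : ℕ} (hm : 1 ≤ m) (hB : B.card ≤ m) {η ε : ℝ} (hη : 0 < η)
    (hε : (m : ℝ) / (n + 1) + η ≤ ε) (hε1 : ε ≤ 1)
    (hBm : ε * A.card ≤ (A.filter fun a => x a ∈ B).card)
    (hNR : ∀ K : AddSubgroup V, Finite K → K ≠ ⊥ → Nat.card K ≤ n →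
      pot A x (ε / (4 * m * n)) -
        pot A (fun a => (QuotientAddGroup.mk (x a) : V ⧸ K)) (ε / (4 * m * n)) <
        A.card * (ε / 6 * Real.log (Nat.card K))) :
    h A (fun u => (F u, x u)) - h A F ≤ 2 * 10 ^ 10 / η ^ 4 * Real.log (2 * m) *
      (h (A ×ˢ A) (fun s => (F s.1 + F s.2, x s.1 + x s.2)) - h (A ×ˢ A) (fun s => F s.1 + F s.2) -
        (h A (fun u => (F u, x u)) - h A F)) := by
  obtain ⟨N, hNd⟩ : ∃ N : ℝ, (A.card : ℝ) = N := ⟨_, rfl⟩
  have hN : (0 : ℝ) < N := by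
    rw [← hNd]
    exact_mod_cast card_pos.2 hA
  have hm1 : (1 : ℝ) ≤ m := by exact_mod_cast hm
  have hηε : η ≤ ε := by
    have : (0 : ℝ) ≤ (m : ℝ) / (n + 1) := by positivity
    linarith
  have hε0 : 0 < ε := by linarith
  have hη1 : η ≤ 1 := by linarith
  obtain ⟨L, hL⟩ : ∃ L : ℝ, Real.log (2 * m) = L := ⟨_, rfl⟩
  have hL69 : 69 / 100 ≤ L := by
    have h1 : Real.log 2 ≤ L := by
      rw [← hL]
      exact Real.log_le_log (by norm_num) (by linarith)
    have := Real.log_two_gt_d9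
    norm_num at this
    linarith
  have hcne : ∀ u ∈ A, (cl A F u).Nonempty := fun u hu => ⟨u, mem_cl.2 ⟨hu, rfl⟩⟩
  obtain ⟨e, he⟩ : ∃ e : α → ℝ, ∀ u, e u = h (cl A F u) x := ⟨_, fun _ => rfl⟩
  have he0 : ∀ u, 0 ≤ e u := fun u => he u ▸ h_nonneg _ _
  obtain ⟨Hs, hHs⟩ : ∃ Hs : α → α → ℝ,
    ∀ u v, Hs u v = h (cl A F u ×ˢ cl A F v) (fun s => x s.1 + x s.2) := ⟨_, fun _ _ => rfl⟩
  have hHl : ∀ u ∈ A, ∀ v ∈ A, e u ≤ Hs u v := fun u _ v hv => by
    rw [he, hHs]
    exact cell_left (cl A F u) (cl A F v) (hcne v hv) x x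
  have hHr : ∀ u ∈ A, ∀ v ∈ A, e v ≤ Hs u v := fun u hu v _ => by
    rw [he, hHs]
    exact cell_right (cl A F u) (cl A F v) (hcne u hu) x x
  obtain ⟨S, hS⟩ : ∃ S, ∑ u ∈ A, e u = S := ⟨_, rfl⟩
  have hS0 : 0 ≤ S := hS ▸ sum_nonneg fun u _ => he0 u
  have ha : h A (fun u => (F u, x u)) - h A F = S / N := by
    rw [chain A F x, ← hS, ← hNd]
    congr 1
    exact sum_congr rfl fun u _ => (he u).symm
  obtain ⟨W, hW⟩ : ∃ W, ∑ u ∈ A, ∑ v ∈ A, Hs u v = W := ⟨_, rfl⟩
  obtain ⟨D, hDd⟩ : ∃ D, h (A ×ˢ A) (fun s => (F s.1 + F s.2, x s.1 + x s.2)) -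
    h (A ×ˢ A) (fun s => F s.1 + F s.2) = D := ⟨_, rfl⟩
  have hD : W / N ^ 2 ≤ D := by
    have h1 := submod (A ×ˢ A) (fun s => F s.1 + F s.2) (fun s => (F s.1, F s.2))
      (fun s => x s.1 + x s.2) (by
        intro s _ t _ hst
        rw [Prod.mk.injEq] at hst
        show F s.1 + F s.2 = F t.1 + F t.2
        rw [hst.1, hst.2])
    rw [← hDd]
    refine le_trans (le_of_eq ?_) h1
    rw [chain (A ×ˢ A) (fun s => (F s.1, F s.2)) (fun s => x s.1 + x s.2), card_product,
      sum_product, ← hW, ← hNd]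
    push_cast
    rw [← sq]
    congr 1
    refine sum_congr rfl fun u _ => sum_congr rfl fun v _ => ?_
    rw [cl_prod, hHs]
  rw [ha, hDd, hL]
  obtain ⟨D₀, hD₀⟩ : ∃ D₀, D₀ = W / N ^ 2 - S / N := ⟨_, rfl⟩
  have hD₀D : D₀ ≤ D - S / N := by linarith
  have hWD : ∑ u ∈ A, ∑ v ∈ A, Hs u v = N ^ 2 * D₀ + N * S := by
    have e1 : N ^ 2 * (W / N ^ 2) = W := mul_div_cancel₀ W (pow_pos hN 2).ne'
    have e2 : N ^ 2 * (S / N) = N * S := by
      rw [sq, mul_assoc, mul_div_cancel₀ S hN.ne']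
    rw [hW, hD₀, mul_sub, e1, e2]
    ring
  have hD₀0 : 0 ≤ D₀ := by
    have h1 : N * S ≤ ∑ u ∈ A, ∑ v ∈ A, Hs u v := by
      have h2 : ∑ u ∈ A, ∑ v ∈ A, e v ≤ ∑ u ∈ A, ∑ v ∈ A, Hs u v :=
        sum_le_sum fun u hu => sum_le_sum fun v hv => hHr u hu v hv
      rw [hS, sum_const, nsmul_eq_mul, hNd] at h2
      exact h2
    rw [hWD] at h1
    have h2 : 0 ≤ N ^ 2 * D₀ := by linarith
    by_contra hcon
    push Not at hcon
    have := mul_neg_of_pos_of_neg (show 0 < N ^ 2 by positivity) hcon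
    linarith
  have hη4 : 0 < η ^ 4 := by positivity
  have hη4' : η ^ 4 ≤ 1 := pow_le_one₀ hη.le hη1
  suffices hs : S / N ≤ 2 * 10 ^ 10 / η ^ 4 * L * D₀ from
    hs.trans (mul_le_mul_of_nonneg_left hD₀D (by positivity))
  by_cases hcase : η / 72 * ((η / 72) ^ 2 / 32000) ≤ D₀
  · -- large doubling
    have hτ0 : 0 < η / 72 * ((η / 72) ^ 2 / 32000) := by positivity
    have hτ1 : η / 72 * ((η / 72) ^ 2 / 32000) ≤ 1 / 200 := by
      have h1 : η ^ 3 ≤ 1 := pow_le_one₀ hη.le hη1
      have h2 : η / 72 * ((η / 72) ^ 2 / 32000) = η ^ 3 / 11943936000 := by ring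
      rw [h2]
      linarith
    have h1 := case_large (A := A) (η := e) (Hs := Hs) (L := L) (D₀ := D₀) hN hNd hS hS0
      (g := fun v => (((cl A F v).filter fun a => x a ∈ B).card : ℝ) / (cl A F v).card) (e := ε)
      (τ := η / 72 * ((η / 72) ^ 2 / 32000)) hε0 hL69 (by
        intro u hu v hv
        have h2 := large (cl A F u) (cl A F v) (hcne u hu) (hcne v hv) x x B hm hB
        rw [hHs, he, he, ← hL]
        exact h2) (by
        rw [sum_pop, ← hNd]
        exact hBm) hWD hτ0 hτ1 hcase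
    refine h1.trans (mul_le_mul_of_nonneg_right ?_ hD₀0)
    have h3 : ε * (η / 72 * ((η / 72) ^ 2 / 32000)) = ε * η ^ 3 / 11943936000 := by ring
    rw [h3]
    have h4 : 101 / 100 * L / (ε * η ^ 3 / 11943936000) =
        (101 / 100 * 11943936000) * L / (ε * η ^ 3) := by
      field_simp
    have h4' : 2 * 10 ^ 10 / η ^ 4 * L = 2 * 10 ^ 10 * L / η ^ 4 := by ring
    rw [h4, h4', div_le_div_iff₀ (by positivity) hη4]
    have h5 : η ^ 4 ≤ ε * η ^ 3 := by
      have h6 : η ^ 4 = η * η ^ 3 := by ring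
      rw [h6]
      exact mul_le_mul_of_nonneg_right hηε (by positivity)
    calc 101 / 100 * 11943936000 * L * η ^ 4 ≤ 2 * 10 ^ 10 * L * η ^ 4 := by
          refine mul_le_mul_of_nonneg_right ?_ hη4.le
          refine mul_le_mul_of_nonneg_right (by norm_num) (by linarith)
      _ ≤ 2 * 10 ^ 10 * L * (ε * η ^ 3) := mul_le_mul_of_nonneg_left h5 (by positivity)
  · -- small doubling
    push Not at hcase
    obtain ⟨u₀, hu₀, hGdc⟩ := good_class hA hN hNd hS hHl hHr hWD
      (show 0 < (η / 72) ^ 2 / 32000 by positivity) hcase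
    obtain ⟨σ, hσ⟩ : ∃ σ, (η / 72) ^ 2 / 32000 = σ := ⟨_, rfl⟩
    rw [hσ] at hGdc
    have hGdA : A.filter (fun v => Hs u₀ v - e u₀ / 2 - e v / 2 ≤ σ) ⊆ A :=
      filter_subset _ _
    have hst : ∀ v ∈ A.filter (fun v => Hs u₀ v - e u₀ / 2 - e v / 2 ≤ σ),
        ∃ K : AddSubgroup V, Finite K ∧
        (∀ g, g ∈ K ↔ Near (lw (cl A F u₀) x) g (η / 72)) ∧
        (∀ g ∈ K, Near (lw (cl A F v) x) g (η / 72)) ∧
        (K = ⊥ → ∃ w, 999 / 1000 * ((cl A F v).card : ℝ) ≤
          ((cl A F v).filter fun s => x s = w).card) := by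
      intro v hv
      have h1 := (mem_filter.1 hv).2
      rw [hHs, he, he, ← hσ] at h1
      exact struct_cell (hcne u₀ hu₀) (hcne v (hGdA hv)) x x (by positivity) (by linarith) h1
    obtain ⟨Gd, hGd⟩ : ∃ Gd, A.filter (fun v => Hs u₀ v - e u₀ / 2 - e v / 2 ≤ σ) =
      Gd := ⟨_, rfl⟩
    rw [hGd] at hGdc hGdA hst
    have hGdc9 : 9 / 10 * N ≤ Gd.card := by
      refine le_trans ?_ hGdc
      exact mul_le_mul_of_nonneg_right (by linarith) hN.le
    have hGdne : Gd.Nonempty := by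
      rw [← card_pos]
      have : (0 : ℝ) < Gd.card := by linarith
      exact_mod_cast this
    obtain ⟨v₁, hv₁⟩ := hGdne
    obtain ⟨K, hKfin, hKmem, -⟩ := hst v₁ hv₁
    have hKc : ∀ v ∈ Gd, (∀ g ∈ K, Near (lw (cl A F v) x) g (η / 72)) ∧
        (K = ⊥ → ∃ w, 999 / 1000 * ((cl A F v).card : ℝ) ≤
          ((cl A F v).filter fun s => x s = w).card) := by
      intro v hv
      obtain ⟨K', -, hK'mem, hK'⟩ := hst v hv
      have : K' = K := by
        ext g
        rw [hKmem, hK'mem]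
      rw [← this]
      exact hK'
    by_cases hK : K = ⊥
    · -- almost all classes have an atom
      have h7 : S / N ≤ 5 * D₀ := by
        refine case_atoms hN hS he0 hGdA hHl hHr ?_ hGdc9 hWD
        intro u hu v hv
        obtain ⟨w, hw⟩ := (hKc u hu).2 hK
        obtain ⟨w', hw'⟩ := (hKc v hv).2 hK
        rw [he, he, hHs]
        exact cell_atoms (cl A F u) (cl A F v) (hcne u (hGdA hu)) (hcne v (hGdA hv)) x x w w'
          hw hw'
      refine h7.trans (mul_le_mul_of_nonneg_right ?_ hD₀0)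
      have h8 : (1 : ℝ) ≤ 1 / η ^ 4 := by
        rw [le_div_iff₀ hη4]
        linarith
      have h9 : 2 * 10 ^ 10 / η ^ 4 * L = (2 * 10 ^ 10 * L) * (1 / η ^ 4) := by ring
      rw [h9]
      have h10 : 5 ≤ 2 * 10 ^ 10 * L := by linarith
      nlinarith
    · -- a large drop modulo `K`
      exfalso
      have hnear : ∀ g ∈ K, Near (lw A x) g (η / 24) := by
        intro g hg
        have h1 := near_avg hA F x hGdA (g := g) (t := η / 72) (b := η / 72) (by positivity)
          (fun u hu => (hKc u hu).1 g hg) (by rw [hNd]; exact hGdc)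
        have h2 : η / 72 + 2 * (η / 72) = η / 24 := by ring
        rwa [h2] at h1
      have hKn : Nat.card K ≤ n := by
        obtain ⟨c, hc', hcc⟩ := cosetF K (0 : V)
        have hc : ∀ v, v ∈ c ↔ v ∈ K := fun v => by rw [hc', sub_zero]
        have h1 := mass_le (law_lw hA x) ⟨0, (hc 0).2 K.zero_mem⟩
          (fun g hg => hnear g ((hc g).1 hg)) B
        rw [sum_lw, hcc] at h1
        have h2 : ε ≤ ((A.filter fun a => x a ∈ B).card : ℝ) / A.card := by
          rw [le_div_iff₀ (by rw [hNd]; exact hN)]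
          exact hBm
        have hKp : (0 : ℝ) < Nat.card K := by exact_mod_cast Nat.card_pos
        have h3 : (B.card : ℝ) / Nat.card K ≤ m / Nat.card K :=
          div_le_div_of_nonneg_right (by exact_mod_cast hB) hKp.le
        have h4 : (m : ℝ) / (n + 1) < m / Nat.card K := by linarith
        have h5 : (Nat.card K : ℝ) < n + 1 := by
          rw [div_lt_div_iff₀ (by positivity) hKp] at h4
          exact lt_of_mul_lt_mul_left h4 (by linarith)
        have h6 : Nat.card K < n + 1 := by exact_mod_cast h5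
        omega
      have hlt := hNR K hKfin hK hKn
      have hge := drop_big hA x hK hnear hm hB hε0 hBm hKn (by linarith)
      linarith

end Pool.Agent.Run7.h127.PS
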